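import Pool.Agent.H56.CT.LEX

/-!
# Existence of the resolution trees: definitions
-/

set_option autoImplicit false

namespace Pool.Agent.H56.RE

open Pool.Agent.H56.CT

/-- The germ is a leaf: in suitable coordinates, compatible with the exceptional divisors, it is
`u^{N1} v^{N2}`. -/
def Lf (g : R2) (a b : ℕ) : Prop :=
  ∃ (ψ : R2 ≃ₐ[ℂ] R2) (N1 N2 : ℕ), ψ g = U ^ N1 * V ^ N2 ∧
    (1 ≤ a → Associated (ψ U) U) ∧ (1 ≤ b → Associated (ψ V) V)

/-- The chart at the point `c` of the exceptional divisor. -/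
noncomputable def cc (c : ℂ) (g : R2) : R2 := sb U (U * (V + MvPowerSeries.C c)) g

/-- The chart at infinity. -/
noncomputable def ci (g : R2) : R2 := sb (U * V) V g

/-- The step of the resolution process in the direction `d` (`none`: infinity). -/
def Stp (d : Option ℂ) (g : R2) (a b : ℕ) (g' : R2) (a' b' : ℕ) : Prop :=
  match d with
  | some c => g' = cc c g ∧ a' = a + b + 1 ∧ b' = if c = 0 then b else 0
  | none => g' = ci g ∧ a' = a ∧ b' = a + b + 1

/-- `g = ε u^n v^m s`, where `s` is the strict transform. -/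
structure St (g : R2) (a b : ℕ) (s : R2) (n m : ℕ) : Prop where
  eq : ∃ ε : R2, IsUnit ε ∧ g = ε * U ^ n * V ^ m * s
  a0 : a = 0 → n = 0
  b0 : b = 0 → m = 0
  ua : 1 ≤ a → ∃ e, co s 0 e ≠ 0
  vb : 1 ≤ b → ∃ e, co s e 0 ≠ 0

end Pool.Agent.H56.RE
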