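import Pool.Agent.H56.RE.EDefs

/-!
# IFA: the implicit function theorem, right inverse

Proof.  `β = co W 0 1`.  Define `Y : ℕ → R2` by `Y 0 = 0`, `Y (k+1) = Y k + C β⁻¹ * e k`, `e k = V - sb U (Y k) W`.  Claim: `co (Y k) 0 0 = 0` and `Hi (k+1) (e k)`, by induction.
`k = 0`: the constant term of `sb U 0 W` is `co W 0 0 = 0` (`sb_co`).  Step: for `X Y1 Y2` with `Hi 1` (constant terms `0`): `sb X Y1 W - sb X Y2 W = (Y1 - Y2) * D` where `D` has constant term `co W 0 1`: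
this is true with `W(u, v1) - W(u, v2) = (v1 - v2) D(u, v1, v2)`.  In Lean: `W = C (co W 0 0) + C (co W 1 0) * U + C β * V + W2`, `Hi 2 W2` (check the coefficients), and by `hi_dec` (twice) `W2 = ∑_{j,j'} X j * X j' * g j j'`;
lemma by induction on `M`: if `Hi M h`, `Hi L (Y1 - Y2)`, `1 ≤ M` then `Hi (L + M - 1) (sb X Y1 h - sb X Y2 h)`: first `Hi L (sb X Y1 h - sb X Y2 h)` for every `h` (the case `M ≤ 1`; for polynomials `h` by
`MvPolynomial.induction_on`: `x1 y1 - x2 y2 = (x1 - x2) y1 + x2 (y1 - y2)`, in general by truncation `trunc_exists`, `sb_Hi`), then `h = ∑ X j * g j` (`hi_dec`), `Hi (M-1) (g j)`,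
`sb X Y1 (X j * g j) - sb X Y2 (X j * g j) = (sb X Y1 (X j) - sb X Y2 (X j)) * sb X Y1 (g j) + sb X Y2 (X j) * (sb X Y1 (g j) - sb X Y2 (g j))` with `Hi L`, `Hi (M-1)` (`sb_Hi`) for the first and `Hi 1`, `Hi (L + M - 2)` for the second
(only the case `M = 2` is needed).
So with `δ = C β⁻¹ * e k`, `Hi (k+1) δ`: `e (k+1) = V - sb U (Y k + δ) W = e k - C β * δ - (sb U (Y k + δ) W2 - sb U (Y k) W2) = - (..)`, which is `Hi (k+2)`.
Limit: `Y∞` with `co Y∞ i j = co (Y (i+j+1)) i j`; `Hi (k+1) (Y (k+1) - Y k)`, so `Hi (k+1) (Y∞ - Y k)` for all `k`.  Then `Hi (k+1) (sb U Y∞ W - sb U (Y k) W)` (the lemma with `M = 1`), so `Hi (k+1) (V - sb U Y∞ W)` for all `k`, and it is zero (`SBB_zero`).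
`co Y∞ 0 1 ≠ 0`: compare the coefficients of `v` in `V = sb U Y∞ W`: `1 = β * co Y∞ 0 1` (by the decomposition of `W`; `sb_Hi` for `W2`; or by the chain rule `sb_pd` for `pd 1`).
-/

set_option autoImplicit false

namespace Pool.Agent.H56.RE

open Pool.Agent.H56.CT Pool.Agent.H22.T7

theorem IFA_sub {L : ℕ} {g h : R2} (hg : Hi L g) (hh : Hi L h) : Hi L (g - h) := by
  have h1 := Hi_add hg (Hi_smul (-1) hh)
  have h2 : g + (-1 : ℂ) • h = g - h := by
    rw [neg_one_smul, sub_eq_add_neg]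
  rwa [h2] at h1

theorem IFA_split (h : R2) : ∃ (c : ℂ) (g0 g1 : R2), h = MvPowerSeries.C c + (U * g0 + V * g1) := by
  obtain ⟨g, -, hg⟩ := hi_dec 0 _ (SBB_hi0 h)
  rw [SBB_X] at hg
  refine ⟨MvPowerSeries.constantCoeff h, g 0, g 1, ?_⟩
  rw [← hg]
  ring

/-- Differences of homomorphisms. -/
theorem IFA_diff (F G : R2 →ₐ[ℂ] R2) (hFU : Hi 1 (F U)) (hFV : Hi 1 (F V)) (hU : F U = G U)
    (L : ℕ) (hV : Hi L (F V - G V)) (N : ℕ) (hN : N ≤ L) (h : R2) : Hi N (F h - G h) := by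
  induction N generalizing h with
  | zero => exact Hi_zero _
  | succ N ih =>
    obtain ⟨c, g0, g1, hg⟩ := IFA_split h
    have h1 : F h - G h = (F U * (F g0 - G g0) + F V * (F g1 - G g1)) + (F V - G V) * G g1 := by
      rw [hg, map_add, map_add, map_add, map_add, map_mul, map_mul, map_mul, map_mul, SBB_C, SBB_C,
        hU]
      ring
    rw [h1]
    refine Hi_add (Hi_add ?_ ?_) ?_
    · rw [add_comm N 1]
      exact Hi_mul hFU (ih (by omega) _)
    · rw [add_comm N 1]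
      exact Hi_mul hFV (ih (by omega) _)
    · rw [mul_comm]
      exact Hi_mul_left _ (Hi_mono hN hV)

theorem IFA_diff2 (F G : R2 →ₐ[ℂ] R2) (hFU : Hi 1 (F U)) (hFV : Hi 1 (F V)) (hGV : Hi 1 (G V))
    (hU : F U = G U) (L : ℕ) (hV : Hi L (F V - G V)) (h : R2) (hh : Hi 2 h) :
    Hi (L + 1) (F h - G h) := by
  obtain ⟨g, hg1, hg⟩ := hi_dec 1 h hh
  rw [SBB_X] at hg
  have h1 : F h - G h = (F U * (F (g 0) - G (g 0)) + F V * (F (g 1) - G (g 1))) +
      (F V - G V) * G (g 1) := by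
    rw [hg, map_add, map_add, map_mul, map_mul, map_mul, map_mul, hU]
    ring
  rw [h1]
  refine Hi_add (Hi_add ?_ ?_) ?_
  · rw [add_comm L 1]
    exact Hi_mul hFU (IFA_diff F G hFU hFV hU L hV L le_rfl _)
  · rw [add_comm L 1]
    exact Hi_mul hFV (IFA_diff F G hFU hFV hU L hV L le_rfl _)
  · exact Hi_mul hV (SBB_Hi G (by rw [← hU]; exact hFU) hGV 1 _ (hg1 1))

theorem IFA_coU (i j : ℕ) : co U i j = if i = 1 ∧ j = 0 then 1 else 0 := by
  unfold co
  rw [MvPowerSeries.coeff_X]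
  congr 1
  apply propext
  constructor
  · intro h
    have h0 := DFunLike.congr_fun h 0
    have h1 := DFunLike.congr_fun h 1
    simp at h0 h1
    exact ⟨h0, h1⟩
  · rintro ⟨rfl, rfl⟩
    simp

theorem IFA_coV (i j : ℕ) : co V i j = if i = 0 ∧ j = 1 then 1 else 0 := by
  unfold co
  rw [MvPowerSeries.coeff_X]
  congr 1
  apply propext
  constructor
  · intro h
    have h0 := DFunLike.congr_fun h 0
    have h1 := DFunLike.congr_fun h 1
    simp at h0 h1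
    exact ⟨h0, h1⟩
  · rintro ⟨rfl, rfl⟩
    simp

theorem IFA_Cmul (c : ℂ) (g : R2) (i j : ℕ) : co (MvPowerSeries.C c * g) i j = c * co g i j := by
  unfold co
  rw [MvPowerSeries.coeff_C_mul]

theorem IFA_hi2 (g : R2) (h0 : co g 0 0 = 0) (h1 : co g 1 0 = 0) (h2 : co g 0 1 = 0) :
    Hi 2 g := by
  intro ρ hρ
  rw [LEX_coeff] at hρ
  rw [LEX_deg]
  by_contra hcon
  have h3 : (ρ 0 = 0 ∧ ρ 1 = 0) ∨ (ρ 0 = 1 ∧ ρ 1 = 0) ∨ (ρ 0 = 0 ∧ ρ 1 = 1) := by omega
  rcases h3 with ⟨a, b⟩ | ⟨a, b⟩ | ⟨a, b⟩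
  · rw [a, b] at hρ; exact hρ h0
  · rw [a, b] at hρ; exact hρ h1
  · rw [a, b] at hρ; exact hρ h2

theorem IFA_hi_co {L : ℕ} {g : R2} (h : Hi L g) (i j : ℕ) (hij : i + j < L) : co g i j = 0 := by
  by_contra hcon
  have h1 := h (Finsupp.single 0 i + Finsupp.single 1 j) hcon
  rw [LEX_deg] at h1
  simp at h1
  omega

/-- The decomposition of `W`. -/
theorem IFA_dec (W : R2) (h0 : co W 0 0 = 0) : ∃ W2 : R2, Hi 2 W2 ∧
    W = MvPowerSeries.C (co W 1 0) * U + MvPowerSeries.C (co W 0 1) * V + W2 := by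
  refine ⟨W - (MvPowerSeries.C (co W 1 0) * U + MvPowerSeries.C (co W 0 1) * V), ?_, by ring⟩
  apply IFA_hi2
  · rw [LEX_sub, LEX_add, IFA_Cmul, IFA_Cmul, IFA_coU, IFA_coV, h0]; simp
  · rw [LEX_sub, LEX_add, IFA_Cmul, IFA_Cmul, IFA_coU, IFA_coV]; simp
  · rw [LEX_sub, LEX_add, IFA_Cmul, IFA_Cmul, IFA_coU, IFA_coV]; simp

/-- The approximations. -/
noncomputable def IFA_Y (W : R2) : ℕ → R2
  | 0 => 0
  | k + 1 => IFA_Y W k + MvPowerSeries.C (co W 0 1)⁻¹ * (V - sb U (IFA_Y W k) W)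

theorem IFA_U0 : co U 0 0 = 0 := by rw [IFA_coU]; simp

theorem IFA_main (W : R2) (h0 : co W 0 0 = 0) (h1 : co W 0 1 ≠ 0) (k : ℕ) :
    co (IFA_Y W k) 0 0 = 0 ∧ Hi (k + 1) (V - sb U (IFA_Y W k) W) := by
  induction k with
  | zero =>
    have h2 : co (IFA_Y W 0) 0 0 = 0 := by
      show co 0 0 0 = 0
      exact LEX_zero 0 0
    refine ⟨h2, ?_⟩
    apply SBB_hi1
    rw [LEX_sub, sb_co U _ IFA_U0 h2, h0, IFA_coV]
    simp
  | succ k ih =>
    obtain ⟨ih1, ih2⟩ := ih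
    have h3 : co (IFA_Y W (k + 1)) 0 0 = 0 := by
      show co (IFA_Y W k + MvPowerSeries.C (co W 0 1)⁻¹ * (V - sb U (IFA_Y W k) W)) 0 0 = 0
      rw [LEX_add, ih1, IFA_Cmul, IFA_hi_co ih2 0 0 (by omega)]
      simp
    refine ⟨h3, ?_⟩
    obtain ⟨F, hF, hFU, hFV⟩ := sb_hom U (IFA_Y W (k + 1)) IFA_U0 h3
    obtain ⟨G, hG, hGU, hGV⟩ := sb_hom U (IFA_Y W k) IFA_U0 ih1
    have h4 : F V - G V = MvPowerSeries.C (co W 0 1)⁻¹ * (V - G W) := by
      rw [hFV, hGV, hG]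
      show IFA_Y W k + MvPowerSeries.C (co W 0 1)⁻¹ * (V - sb U (IFA_Y W k) W) - IFA_Y W k = _
      ring
    rw [← hG] at ih2
    have h5 : Hi (k + 1) (F V - G V) := by
      rw [h4]
      exact Hi_mul_left _ ih2
    have hiU : Hi 1 (F U) := by rw [hFU]; exact SBB_hi1 _ IFA_U0
    have hiFV : Hi 1 (F V) := by rw [hFV]; exact SBB_hi1 _ h3
    have hiGV : Hi 1 (G V) := by rw [hGV]; exact SBB_hi1 _ ih1
    obtain ⟨W2, hW2, hW⟩ := IFA_dec W h0
    have h6 := IFA_diff2 F G hiU hiFV hiGV (by rw [hFU, hGU]) (k + 1) h5 W2 hW2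
    have h7 : MvPowerSeries.C (co W 0 1) * MvPowerSeries.C (co W 0 1)⁻¹ = (1 : R2) := by
      rw [← map_mul, mul_inv_cancel₀ h1, map_one]
    have h8 : F W - G W = (V - G W) + (F W2 - G W2) := by
      have e1 : F W = MvPowerSeries.C (co W 1 0) * F U + MvPowerSeries.C (co W 0 1) * F V + F W2 := by
        conv_lhs => rw [hW]
        rw [map_add, map_add, map_mul, map_mul, SBB_C, SBB_C]
      have e2 : G W = MvPowerSeries.C (co W 1 0) * G U + MvPowerSeries.C (co W 0 1) * G V + G W2 := by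
        conv_lhs => rw [hW]
        rw [map_add, map_add, map_mul, map_mul, SBB_C, SBB_C]
      have e3 : F W - G W = MvPowerSeries.C (co W 1 0) * (F U - G U) +
          MvPowerSeries.C (co W 0 1) * (F V - G V) + (F W2 - G W2) := by
        rw [e1, e2]; ring
      rw [e3, hFU, hGU, h4, ← mul_assoc, h7]
      ring
    have h9 : V - sb U (IFA_Y W (k + 1)) W = 0 - (F W2 - G W2) := by
      rw [← hF]
      linear_combination -h8
    rw [h9]
    have hz : Hi (k + 1 + 1) (0 : R2) := by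
      intro ρ hρ
      simp at hρ
    exact IFA_sub hz h6

theorem IFA_step (W : R2) (h0 : co W 0 0 = 0) (h1 : co W 0 1 ≠ 0) (k m : ℕ) (hkm : k ≤ m) :
    Hi (k + 1) (IFA_Y W m - IFA_Y W k) := by
  induction m, hkm using Nat.le_induction with
  | base =>
    rw [sub_self]
    intro ρ hρ
    simp at hρ
  | succ m hm ih =>
    have e : IFA_Y W (m + 1) - IFA_Y W k =
        MvPowerSeries.C (co W 0 1)⁻¹ * (V - sb U (IFA_Y W m) W) + (IFA_Y W m - IFA_Y W k) := by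
      show IFA_Y W m + MvPowerSeries.C (co W 0 1)⁻¹ * (V - sb U (IFA_Y W m) W) - IFA_Y W k = _
      ring
    rw [e]
    exact Hi_add (Hi_mono (by omega) (Hi_mul_left _ (IFA_main W h0 h1 m).2)) ih

/-- The limit. -/
noncomputable def IFA_lim (W : R2) : R2 :=
  fun ρ => MvPowerSeries.coeff ρ (IFA_Y W (ρ.degree + 1))

theorem IFA_lim_coeff (W : R2) (ρ : Fin 2 →₀ ℕ) :
    MvPowerSeries.coeff ρ (IFA_lim W) = MvPowerSeries.coeff ρ (IFA_Y W (ρ.degree + 1)) := by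
  rw [MvPowerSeries.coeff_apply, IFA_lim]

theorem IFA_lim_hi (W : R2) (h0 : co W 0 0 = 0) (h1 : co W 0 1 ≠ 0) (k : ℕ) :
    Hi (k + 1) (IFA_lim W - IFA_Y W k) := by
  intro ρ hρ
  by_contra hcon
  apply hρ
  rw [map_sub, IFA_lim_coeff]
  have hd : ρ.degree ≤ k := by omega
  rcases Nat.lt_or_ge ρ.degree k with h | h
  · have h2 := IFA_step W h0 h1 (ρ.degree + 1) k (by omega)
    by_contra h3
    have h4 : MvPowerSeries.coeff ρ (IFA_Y W k - IFA_Y W (ρ.degree + 1)) ≠ 0 := by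
      rw [map_sub]
      intro h5
      exact h3 (by linear_combination -h5)
    have := h2 ρ h4
    omega
  · have h5 : ρ.degree = k := by omega
    rw [h5]
    have h2 := IFA_step W h0 h1 k (k + 1) (by omega)
    by_contra h3
    have h4 : MvPowerSeries.coeff ρ (IFA_Y W (k + 1) - IFA_Y W k) ≠ 0 := by
      rw [map_sub]
      exact h3
    have := h2 ρ h4
    omega

/-- The right inverse. -/
theorem ift_right (W : R2) (h0 : co W 0 0 = 0) (h1 : co W 0 1 ≠ 0) :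
    ∃ Y : R2, co Y 0 0 = 0 ∧ co Y 0 1 ≠ 0 ∧ sb U Y W = V := by
  have hY0 : co (IFA_lim W) 0 0 = 0 := by
    have h2 := IFA_hi_co (IFA_lim_hi W h0 h1 0) 0 0 (by omega)
    have h3 : IFA_lim W - IFA_Y W 0 = IFA_lim W := by
      show IFA_lim W - 0 = _
      rw [sub_zero]
    rwa [h3] at h2
  obtain ⟨F, hF, hFU, hFV⟩ := sb_hom U (IFA_lim W) IFA_U0 hY0
  have hiU : Hi 1 (F U) := by rw [hFU]; exact SBB_hi1 _ IFA_U0
  have hiFV : Hi 1 (F V) := by rw [hFV]; exact SBB_hi1 _ hY0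
  have hW : F W = V := by
    have h2 : V - F W = 0 := by
      apply SBB_zero
      intro N
      rcases N with _ | k
      · exact Hi_zero _
      · obtain ⟨hk1, hk2⟩ := IFA_main W h0 h1 k
        obtain ⟨G, hG, hGU, hGV⟩ := sb_hom U (IFA_Y W k) IFA_U0 hk1
        have h3 : Hi (k + 1) (F V - G V) := by
          rw [hFV, hGV]
          exact IFA_lim_hi W h0 h1 k
        have h4 := IFA_diff F G hiU hiFV (by rw [hFU, hGU]) (k + 1) h3 (k + 1) le_rfl W
        rw [← hG] at hk2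
        have h5 : V - F W = (V - G W) - (F W - G W) := by ring
        rw [h5]
        exact IFA_sub hk2 h4
    exact (sub_eq_zero.1 h2).symm
  refine ⟨IFA_lim W, hY0, ?_, by rw [← hF]; exact hW⟩
  intro hcon
  obtain ⟨W2, hW2, hWd⟩ := IFA_dec W h0
  have e1 : F W = MvPowerSeries.C (co W 1 0) * U + MvPowerSeries.C (co W 0 1) * IFA_lim W + F W2 := by
    conv_lhs => rw [hWd]
    rw [map_add, map_add, map_mul, map_mul, SBB_C, SBB_C, hFU, hFV]
  have h3 := IFA_hi_co (SBB_Hi F hiU hiFV 2 W2 hW2) 0 1 (by omega)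
  rw [hW] at e1
  have e2 : co V 0 1 = co (MvPowerSeries.C (co W 1 0) * U +
      MvPowerSeries.C (co W 0 1) * IFA_lim W + F W2) 0 1 := by rw [← e1]
  rw [LEX_add, LEX_add, IFA_Cmul, IFA_Cmul, h3, hcon, IFA_coU, IFA_coV] at e2
  simp at e2

end Pool.Agent.H56.RE
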