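import Pool.Agent.H56.RE.IFA

/-!
# IFB: the inverse function theorem; roots of units

Proof.  `ift`: `Y` from `ift_right W`, `Z` from `ift_right Y`.  `θ_W g = sb U W g` etc. are algebra homomorphisms (`sb_hom`).  `θ_Y (θ_W g) = sb U Y (sb U W g) = sb (sb U Y U) (sb U Y W) g = sb U V g = g` (`sb_sb`, `sb_id`, `sb U Y U = U`
by `sb_hom`), `θ_Z (θ_Y g) = g` in the same way.  So `θ_Y` is injective (left inverse `θ_Z`) and surjective (right inverse `θ_W`), and `θ_W` is its inverse: `θ_W (θ_Y x) = x` since `θ_Y (θ_W (θ_Y x)) = θ_Y x`.  `AlgEquiv.ofAlgHom`.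
`ift'`: conjugate with the swap `sb V U` (an automorphism, its own inverse: `sb_sb`, `sb_id`): `W' = sb V U W` has `co W' i j = co W j i` (for the coefficients: `W ↦ W'` is `MvPowerSeries.rename (Equiv.swap 0 1)`; or only for `(0,0)` and
`(1,0)`: `sb_co`, and `W = C .. + C .. * U + C .. * V + W2` with `Hi 2 W2`).
`unit_root`: `W = (1 + V)^n - 1`: `co W 0 0 = 0`, `co W 0 1 = n`.  `ift_right`: `Y` with `(1 + Y)^n - 1 = V` (`sb_hom`).  Let `e0 = constantCoeff ε ≠ 0`, `x = C e0⁻¹ * ε - 1`, `co x 0 0 = 0`; apply `sb U x`: `(1 + sb U x Y)^n = 1 + x = C e0⁻¹ * ε`.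
With `r^n = e0` (`IsAlgClosed.exists_pow_nat_eq`) take `η = C r * (1 + sb U x Y)`.
-/

set_option autoImplicit false

namespace Pool.Agent.H56.RE

open Pool.Agent.H56.CT Pool.Agent.H22.T7

theorem IFB_pd0 (g : R2) (i j : ℕ) : co (pd 0 g) i j = co g (i + 1) j * ((i : ℂ) + 1) := by
  unfold co pd
  rw [MvPowerSeries.coeff_pderiv]
  congr 1
  · congr 1
    rw [Finsupp.single_add]
    abel_nf
  · simp

theorem IFB_pd1 (g : R2) (i j : ℕ) : co (pd 1 g) i j = co g i (j + 1) * ((j : ℂ) + 1) := by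
  unfold co pd
  rw [MvPowerSeries.coeff_pderiv]
  congr 1
  · congr 1
    rw [Finsupp.single_add]
    abel_nf
  · simp

theorem IFB_U : co U 0 0 = 0 := by
  rw [SBB_coe, MvPowerSeries.constantCoeff_X]

theorem IFB_V : co V 0 0 = 0 := by
  rw [SBB_coe, MvPowerSeries.constantCoeff_X]

/-- The inverse function theorem. -/
theorem ift (W : R2) (h0 : co W 0 0 = 0) (h1 : co W 0 1 ≠ 0) :
    ∃ θ : R2 ≃ₐ[ℂ] R2, θ U = U ∧ θ V = W := by
  obtain ⟨Y, hY0, hY1, hY⟩ := ift_right W h0 h1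
  obtain ⟨Z, hZ0, -, hZ⟩ := ift_right Y hY0 hY1
  obtain ⟨FW, hFW, hWU, hWV⟩ := sb_hom U W IFB_U h0
  obtain ⟨FY, hFY, hYU, hYV⟩ := sb_hom U Y IFB_U hY0
  obtain ⟨FZ, hFZ, hZU, hZV⟩ := sb_hom U Z IFB_U hZ0
  have e1 : ∀ g, FY (FW g) = g := by
    intro g
    rw [hFW, hFY, sb_sb U W U Y IFB_U h0 IFB_U hY0, hY, ← hFY U, hYU, sb_id]
  have e2 : ∀ g, FZ (FY g) = g := by
    intro g
    rw [hFY, hFZ, sb_sb U Y U Z IFB_U hY0 IFB_U hZ0, hZ, ← hFZ U, hZU, sb_id]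
  have e3 : ∀ g, FW (FY g) = g := by
    intro g
    have h2 := e2 (FW (FY g))
    rw [e1, e2] at h2
    exact h2.symm
  exact ⟨AlgEquiv.ofAlgHom FW FY (AlgHom.ext e3) (AlgHom.ext e1), hWU, hWV⟩

/-- The same for the other coordinate. -/
theorem ift' (W : R2) (h0 : co W 0 0 = 0) (h1 : co W 1 0 ≠ 0) :
    ∃ θ : R2 ≃ₐ[ℂ] R2, θ U = W ∧ θ V = V := by
  obtain ⟨S, hS, hSU, hSV⟩ := sb_hom V U IFB_V IFB_U
  have hSS : ∀ g, S (S g) = g := by
    intro g
    rw [hS g, hS, sb_sb V U V U IFB_V IFB_U IFB_V IFB_U, ← hS V, ← hS U, hSU, hSV, sb_id]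
  let σ : R2 ≃ₐ[ℂ] R2 := AlgEquiv.ofAlgHom S S (AlgHom.ext hSS) (AlgHom.ext hSS)
  have hσ : ∀ g, σ g = S g := fun g => rfl
  have h2 : co (S W) 0 0 = 0 := by
    rw [hS, sb_co V U IFB_V IFB_U, h0]
  have h3 : co (S W) 0 1 ≠ 0 := by
    have p1 : pd 1 V = 1 := MvPowerSeries.pderiv_X_self
    have p2 : pd 1 U = 0 := MvPowerSeries.pderiv_X_of_ne (by decide)
    have h4 := sb_pd V U IFB_V IFB_U 1 W
    rw [p1, p2, mul_one, mul_zero, add_zero] at h4
    have h5 : co (pd 1 (sb V U W)) 0 0 = co (sb V U (pd 0 W)) 0 0 := by rw [h4]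
    rw [IFB_pd1, sb_co V U IFB_V IFB_U, IFB_pd0] at h5
    simp only [zero_add, Nat.cast_zero, mul_one] at h5
    rw [hS, h5]
    exact h1
  obtain ⟨θ, hU, hV⟩ := ift (S W) h2 h3
  refine ⟨(σ.trans θ).trans σ, ?_, ?_⟩
  · rw [AlgEquiv.trans_apply, AlgEquiv.trans_apply, hσ, hσ, hSU, hV, hSS]
  · rw [AlgEquiv.trans_apply, AlgEquiv.trans_apply, hσ, hσ, hSV, hU, hSU]

/-- Units have roots. -/
theorem unit_root (ε : R2) (hε : IsUnit ε) (n : ℕ) (hn : 0 < n) :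
    ∃ η : R2, IsUnit η ∧ η ^ n = ε := by
  have hW0 : co ((1 + V) ^ n - 1) 0 0 = 0 := by
    rw [SBB_coe, map_sub, map_pow, map_add, map_one, MvPowerSeries.constantCoeff_X, add_zero,
      one_pow, sub_self]
  have hW1 : co ((1 + V) ^ n - 1) 0 1 ≠ 0 := by
    have h1 := IFB_pd1 ((1 + V) ^ n - 1) 0 0
    simp only [zero_add, Nat.cast_zero, mul_one] at h1
    rw [← h1]
    have p1 : pd 1 V = 1 := MvPowerSeries.pderiv_X_self
    have h2 : pd 1 ((1 + V) ^ n - 1) = (n : R2) * (1 + V) ^ (n - 1) := by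
      unfold pd at p1 ⊢
      rw [map_sub, Derivation.leibniz_pow, map_add, p1, Derivation.map_one_eq_zero]
      simp
    rw [h2, SBB_coe, map_mul, map_pow, map_add, map_one, MvPowerSeries.constantCoeff_X, add_zero,
      one_pow, mul_one, map_natCast]
    exact_mod_cast hn.ne'
  obtain ⟨Y, hY0, -, hY⟩ := ift_right _ hW0 hW1
  have he0 : MvPowerSeries.constantCoeff ε ≠ 0 :=
    (MvPowerSeries.isUnit_iff_constantCoeff.1 hε).ne_zero
  set e0 := MvPowerSeries.constantCoeff ε with he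
  set x : R2 := MvPowerSeries.C e0⁻¹ * ε - 1 with hx
  have hx0 : co x 0 0 = 0 := by
    rw [SBB_coe, hx, map_sub, map_mul, MvPowerSeries.constantCoeff_C, map_one, ← he,
      inv_mul_cancel₀ he0, sub_self]
  obtain ⟨FY, hFY, hYU, hYV⟩ := sb_hom U Y IFB_U hY0
  obtain ⟨G, hG, hGU, hGV⟩ := sb_hom U x IFB_U hx0
  rw [← hFY, map_sub, map_pow, map_add, map_one, hYV] at hY
  have h1 := congrArg G hY
  rw [map_sub, map_pow, map_add, map_one, hGV, hx] at h1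
  have h2 : (1 + G Y) ^ n = MvPowerSeries.C e0⁻¹ * ε := by
    have := congrArg (fun g => g + 1) h1
    simpa using this
  obtain ⟨r, hr⟩ := IsAlgClosed.exists_pow_nat_eq e0 hn
  have h3 : (MvPowerSeries.C r * (1 + G Y)) ^ n = ε := by
    rw [mul_pow, h2, ← map_pow, hr, ← mul_assoc, ← map_mul, mul_inv_cancel₀ he0, map_one, one_mul]
  refine ⟨MvPowerSeries.C r * (1 + G Y), ?_, h3⟩
  rw [← h3] at hε
  exact (isUnit_pow_iff hn.ne').1 hε

end Pool.Agent.H56.RE
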