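import Pool.Agent.H56.RE.IFB

/-!
# LFS: leaves

Proof.  `lf_mono`: if `n > 0`: `η^n = ε` (`unit_root`), `ift'` for `W = U * η` (`co (U*η) 1 0 = co η 0 0 ≠ 0`): `θ U = U * η`, `θ V = V`; `ψ = θ.symm`: `g = (U η)^n V^m`, `ψ g = U^n V^m`; `ψ (U η) = U`, so `ψ U * ψ η = U`, `ψ η` is a unit: `Associated (ψ U) U`;
`ψ V = V`.  If `n = 0` then `m > 0`, in the same way with `ift` and `V * η`.
`lf_V`: `η^μ = ε`, `ift` for `W * η` (`co (W*η) 0 1 = co W 0 1 * co η 0 0`, since `co W 0 0 = 0`): `θ U = U`, `θ V = W η`, `ψ = θ.symm`, `ψ g = U^n V^μ`.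
`lf_U`: symmetric with `ift'`.
-/

set_option autoImplicit false

namespace Pool.Agent.H56.RE

open Pool.Agent.H56.CT Pool.Agent.H22.T7

theorem LFS_co_mul (g h : R2) (i j : ℕ) :
    co (g * h) i j = ∑ p ∈ Finset.HasAntidiagonal.antidiagonal i,
      ∑ q ∈ Finset.HasAntidiagonal.antidiagonal j,
      co g p.1 q.1 * co h p.2 q.2 := by
  classical
  unfold co
  rw [MvPowerSeries.coeff_mul, ← Finset.sum_product']
  symm
  refine Finset.sum_nbij'
    (fun x => ((Finsupp.single 0 x.1.1 + Finsupp.single 1 x.2.1 : Fin 2 →₀ ℕ),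
      (Finsupp.single 0 x.1.2 + Finsupp.single 1 x.2.2 : Fin 2 →₀ ℕ)))
    (fun y => ((y.1 0, y.2 0), (y.1 1, y.2 1))) ?_ ?_ ?_ ?_ ?_
  · rintro ⟨⟨a, b⟩, c, d⟩ hx
    simp only [Finset.mem_product, Finset.HasAntidiagonal.mem_antidiagonal] at hx
    simp only [Finset.HasAntidiagonal.mem_antidiagonal]
    rw [← hx.1, ← hx.2, Finsupp.single_add, Finsupp.single_add]
    abel
  · rintro ⟨a, b⟩ hx
    simp only [Finset.HasAntidiagonal.mem_antidiagonal] at hx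
    simp only [Finset.mem_product, Finset.HasAntidiagonal.mem_antidiagonal]
    have h0 := congrArg (fun w : Fin 2 →₀ ℕ => w 0) hx
    have h1 := congrArg (fun w : Fin 2 →₀ ℕ => w 1) hx
    simp at h0 h1
    exact ⟨h0, h1⟩
  · rintro ⟨⟨a, b⟩, c, d⟩ hx
    simp
  · rintro ⟨a, b⟩ hx
    simp only [Prod.mk.injEq]
    constructor
    · ext k
      fin_cases k <;> simp
    · ext k
      fin_cases k <;> simp
  · rintro ⟨⟨a, b⟩, c, d⟩ hx
    rfl

theorem LFS_00 (g h : R2) : co (g * h) 0 0 = co g 0 0 * co h 0 0 := by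
  rw [LFS_co_mul]
  simp

theorem LFS_01 (g h : R2) : co (g * h) 0 1 = co g 0 0 * co h 0 1 + co g 0 1 * co h 0 0 := by
  rw [LFS_co_mul]
  simp [Finset.Nat.antidiagonal_succ]

theorem LFS_10 (g h : R2) : co (g * h) 1 0 = co g 0 0 * co h 1 0 + co g 1 0 * co h 0 0 := by
  rw [LFS_co_mul]
  simp [Finset.Nat.antidiagonal_succ]

theorem LFS_unit {η : R2} (h : IsUnit η) : co η 0 0 ≠ 0 := by
  rw [SBB_coe]
  exact isUnit_iff_ne_zero.1 (MvPowerSeries.isUnit_iff_constantCoeff.1 h)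

theorem LFS_U0 : co U 0 0 = 0 := by
  rw [SBB_coe, MvPowerSeries.constantCoeff_X]

theorem LFS_V0 : co V 0 0 = 0 := by
  rw [SBB_coe, MvPowerSeries.constantCoeff_X]

theorem LFS_U1 : co U 1 0 = 1 := by
  unfold co
  rw [Finsupp.single_zero, add_zero, MvPowerSeries.coeff_index_single_self_X]

theorem LFS_V1 : co V 0 1 = 1 := by
  unfold co
  rw [Finsupp.single_zero, zero_add, MvPowerSeries.coeff_index_single_self_X]

theorem LFS_symm {θ : R2 ≃ₐ[ℂ] R2} {X Y : R2} (h : θ X = Y) : θ.symm Y = X := by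
  rw [← h, AlgEquiv.symm_apply_apply]

theorem LFS_assoc {ψ : R2 ≃ₐ[ℂ] R2} {X η : R2} (hη : IsUnit η) (h : ψ (X * η) = X) :
    Associated (ψ X) X := by
  have h1 : IsUnit (ψ η) := hη.map ψ
  obtain ⟨u, hu⟩ := h1
  refine ⟨u, ?_⟩
  rw [hu, ← map_mul, h]

/-- Monomials. -/
theorem lf_mono (ε : R2) (hε : IsUnit ε) (n m : ℕ) (hnm : 0 < n ∨ 0 < m) (a b : ℕ) :
    Lf (ε * U ^ n * V ^ m) a b := by
  by_cases hn : 0 < n
  · obtain ⟨η, hη, he⟩ := unit_root ε hε n hn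
    obtain ⟨θ, hU, hV⟩ := ift' (U * η) (by rw [LFS_00, LFS_U0, zero_mul])
      (by rw [LFS_10, LFS_U0, LFS_U1, zero_mul, zero_add, one_mul]; exact LFS_unit hη)
    refine ⟨θ.symm, n, m, ?_, fun _ => ?_, fun _ => ?_⟩
    · apply LFS_symm
      rw [map_mul, map_pow, map_pow, hU, hV, mul_pow, he]
      ring
    · exact LFS_assoc hη (LFS_symm hU)
    · rw [LFS_symm hV]
  · have hm : 0 < m := hnm.resolve_left hn
    have hn0 : n = 0 := by omega
    subst hn0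
    obtain ⟨η, hη, he⟩ := unit_root ε hε m hm
    obtain ⟨θ, hU, hV⟩ := ift (V * η) (by rw [LFS_00, LFS_V0, zero_mul])
      (by rw [LFS_01, LFS_V0, LFS_V1, zero_mul, zero_add, one_mul]; exact LFS_unit hη)
    refine ⟨θ.symm, 0, m, ?_, fun _ => ?_, fun _ => ?_⟩
    · apply LFS_symm
      rw [map_mul, map_pow, map_pow, hU, hV, mul_pow, he]
      ring
    · rw [LFS_symm hU]
    · exact LFS_assoc hη (LFS_symm hV)

/-- A smooth curve which is transversal to `u = 0`. -/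
theorem lf_V (ε : R2) (hε : IsUnit ε) (n μ : ℕ) (hμ : 0 < μ) (W : R2) (h0 : co W 0 0 = 0)
    (h1 : co W 0 1 ≠ 0) (a : ℕ) : Lf (ε * U ^ n * W ^ μ) a 0 := by
  obtain ⟨η, hη, he⟩ := unit_root ε hε μ hμ
  obtain ⟨θ, hU, hV⟩ := ift (W * η) (by rw [LFS_00, h0, zero_mul])
    (by rw [LFS_01, h0, zero_mul, zero_add]; exact mul_ne_zero h1 (LFS_unit hη))
  refine ⟨θ.symm, n, μ, ?_, fun _ => ?_, fun h => by omega⟩
  · apply LFS_symm
    rw [map_mul, map_pow, map_pow, hU, hV, mul_pow, he]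
    ring
  · rw [LFS_symm hU]

/-- A smooth curve which is transversal to `v = 0`. -/
theorem lf_U (ε : R2) (hε : IsUnit ε) (m μ : ℕ) (hμ : 0 < μ) (W : R2) (h0 : co W 0 0 = 0)
    (h1 : co W 1 0 ≠ 0) (b : ℕ) : Lf (ε * V ^ m * W ^ μ) 0 b := by
  obtain ⟨η, hη, he⟩ := unit_root ε hε μ hμ
  obtain ⟨θ, hU, hV⟩ := ift' (W * η) (by rw [LFS_00, h0, zero_mul])
    (by rw [LFS_10, h0, zero_mul, zero_add]; exact mul_ne_zero h1 (LFS_unit hη))
  refine ⟨θ.symm, μ, m, ?_, fun h => by omega, fun _ => ?_⟩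
  · apply LFS_symm
    rw [map_mul, map_pow, map_pow, hU, hV, mul_pow, he]
    ring
  · rw [LFS_symm hV]

/-- Composition with an automorphism. -/
theorem lf_aut (θ : R2 ≃ₐ[ℂ] R2) (g : R2) (h : Lf (θ g) 0 0) : Lf g 0 0 := by
  obtain ⟨ψ, N1, N2, h1, -, -⟩ := h
  exact ⟨θ.trans ψ, N1, N2, h1, fun h => by omega, fun h => by omega⟩

end Pool.Agent.H56.RE
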