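import Pool.Agent.H56.RE.EDefs

/-!
# LIM: an infinite sequence of blow-ups in which the multiplicity does not drop

Proof.  `γ = gam c` with `co γ i j = c (i-1)` if `j = 0`, `1 ≤ i`, and `0` otherwise, satisfies
`gam c = U * (gam (shift c) + C (c 0))`, so `sb U Y (gam c) = gam c`.  Let
`h_j = sb U (V + gam (shift^j c)) (t j)`.  Then `sb U (U * V) h_j = U^μ * h_{j+1}`, so
`co h_j i k = 0` for `k < μ` by induction on `i`, and `h_0 = V^μ * δ'`.  With `W = V - γ`: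
`t 0 = sb U W h_0 = W^μ * sb U W δ'`.
-/

set_option autoImplicit false

namespace Pool.Agent.H56.RE

open Pool.Agent.H56.CT Pool.Agent.H22.T7

/-- The power series `∑_j c_j u^{j+1}`. -/
noncomputable def LIM_gam (c : ℕ → ℂ) : R2 :=
  fun ρ => if ρ 1 = 0 ∧ 1 ≤ ρ 0 then c (ρ 0 - 1) else 0

theorem LIM_co (c : ℕ → ℂ) (i j : ℕ) :
    co (LIM_gam c) i j = if j = 0 ∧ 1 ≤ i then c (i - 1) else 0 := by
  show (LIM_gam c) (Finsupp.single 0 i + Finsupp.single 1 j) = _
  unfold LIM_gam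
  simp

theorem LIM_coC (a : ℂ) (i j : ℕ) :
    co (MvPowerSeries.C a) i j = if i = 0 ∧ j = 0 then a else 0 := by
  have h : (MvPowerSeries.C a : R2) = a • 1 :=
    Algebra.algebraMap_eq_smul_one (R := ℂ) (A := R2) a
  rw [h, LEX_smul, LEX_one]
  split_ifs <;> simp

theorem LIM_U1 (h : R2) (i j : ℕ) : co (U * h) i j = if 1 ≤ i then co h (i - 1) j else 0 := by
  have := LEX_Um 1 h i j
  rwa [pow_one] at this

theorem LIM_rec (c : ℕ → ℂ) :
    LIM_gam c = U * (LIM_gam (fun j => c (j + 1)) + MvPowerSeries.C (c 0)) := by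
  apply LEX_ext
  intro i j
  rw [LIM_U1, LEX_add, LIM_co, LIM_co, LIM_coC]
  by_cases h1 : 1 ≤ i
  · rw [if_pos h1]
    by_cases h2 : j = 0
    · rw [if_pos ⟨h2, h1⟩]
      by_cases h3 : i = 1
      · subst h3
        simp [h2]
      · rw [if_pos ⟨h2, by omega⟩, if_neg (by omega), add_zero]
        congr 1
        omega
    · rw [if_neg (fun h => h2 h.1), if_neg (fun h => h2 h.1), if_neg (fun h => h2 h.2), add_zero]
  · rw [if_neg h1, if_neg (fun h => h1 h.2)]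

theorem LIM_g0 (c : ℕ → ℂ) : co (LIM_gam c) 0 0 = 0 := by
  rw [LIM_co, if_neg (by omega)]

theorem LIM_sbg (Y : R2) (hY : co Y 0 0 = 0) (c : ℕ → ℂ) : sb U Y (LIM_gam c) = LIM_gam c := by
  obtain ⟨F, hF, hFU, hFV⟩ := sb_hom U Y LEX_U0 hY
  have key : ∀ (i : ℕ) (k : ℕ) (c : ℕ → ℂ), co (F (LIM_gam c) - LIM_gam c) i k = 0 := by
    intro i
    induction i with
    | zero =>
      intro k c
      conv_lhs => rw [LIM_rec c, map_mul, hFU, ← mul_sub, LIM_U1]
      rw [if_neg (by omega)]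
    | succ i ih =>
      intro k c
      have h1 : F (LIM_gam c) - LIM_gam c =
          U * (F (LIM_gam (fun j => c (j + 1))) - LIM_gam (fun j => c (j + 1))) := by
        conv_lhs => rw [LIM_rec c, map_mul, hFU, ← mul_sub, map_add, SBB_C]
        ring
      rw [h1, LIM_U1, if_pos (by omega), Nat.add_sub_cancel]
      exact ih k _
  rw [← hF]
  apply LEX_ext
  intro i k
  have h2 := key i k c
  rw [LEX_sub] at h2
  exact sub_eq_zero.mp h2

theorem LIM_step (t t' : R2) (c : ℕ → ℂ) (μ : ℕ) (h : cc (c 0) t = U ^ μ * t') :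
    sb U (U * V) (sb U (V + LIM_gam c) t) =
      U ^ μ * sb U (V + LIM_gam (fun j => c (j + 1))) t' := by
  have hV1 : ∀ c : ℕ → ℂ, co (V + LIM_gam c) 0 0 = 0 := by
    intro c
    rw [LEX_add, LEX_V0, LIM_g0, add_zero]
  have hUV : co (U * V) 0 0 = 0 := by rw [LIM_U1, if_neg (by omega)]
  have hUC : co (U * (V + MvPowerSeries.C (c 0))) 0 0 = 0 := by rw [LIM_U1, if_neg (by omega)]
  obtain ⟨F, hF, hFU, hFV⟩ := sb_hom U (V + LIM_gam (fun j => c (j + 1))) LEX_U0 (hV1 _)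
  obtain ⟨G, hG, hGU, hGV⟩ := sb_hom U (U * V) LEX_U0 hUV
  have h1 := congrArg (sb U (V + LIM_gam (fun j => c (j + 1)))) h
  rw [← hF (U ^ μ * t'), map_mul, map_pow, hFU, hF t'] at h1
  rw [← h1]
  unfold cc
  rw [sb_sb _ _ _ _ LEX_U0 hUC LEX_U0 (hV1 _), sb_sb _ _ _ _ LEX_U0 (hV1 _) LEX_U0 hUV]
  congr 1
  · rw [← hF, ← hG, hFU, hGU]
  · rw [← hF, ← hG, map_add, hGV, hG, LIM_sbg _ hUV, map_mul, hFU, map_add, hFV, SBB_C]
    conv_lhs => rw [LIM_rec c]
    ring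

theorem LIM_co2 (g g' : R2) (μ : ℕ) (h : sb U (U * V) g = U ^ μ * g') (i k : ℕ) :
    co g i k = if μ ≤ i + k then co g' (i + k - μ) k else 0 := by
  have h1 := LEX_c0 g (i + k) k
  rw [MvPowerSeries.C.map_zero, add_zero, h, LEX_Um, if_pos (by omega : k ≤ i + k),
    Nat.add_sub_cancel] at h1
  exact h1.symm

theorem LIM_hi {g : R2} {μ : ℕ} (h : Ord g μ) (hh : Hi (μ + 1) g) : False := by
  obtain ⟨j, hj, hne⟩ := LEX_ord_ex h
  have h2 := hh _ hne
  rw [map_add, Finsupp.degree_single, Finsupp.degree_single] at h2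
  omega

theorem LIM_pow {W : R2} (hW : Hi 1 W) (μ : ℕ) : Hi μ (W ^ μ) := by
  induction μ with
  | zero => exact Hi_zero _
  | succ n ih =>
    rw [pow_succ]
    exact Hi_mul ih hW

theorem LIM_unit {g : R2} {μ : ℕ} (h : Ord g μ) (W δ : R2) (hW : co W 0 0 = 0)
    (hg : g = W ^ μ * δ) : IsUnit δ := by
  by_contra hc
  rw [MvPowerSeries.isUnit_iff_constantCoeff] at hc
  have h1 : co δ 0 0 = 0 := by
    rw [SBB_coe]
    by_contra h2
    exact hc (isUnit_iff_ne_zero.mpr h2)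
  apply LIM_hi h
  rw [hg]
  exact Hi_mul (LIM_pow (SBB_hi1 _ hW) μ) (SBB_hi1 _ h1)

/-- LIM -/
theorem lim (t : ℕ → R2) (c : ℕ → ℂ) (μ : ℕ) (hO : Ord (t 0) μ)
    (h : ∀ j, cc (c j) (t j) = U ^ μ * t (j + 1)) :
    ∃ W δ : R2, co W 0 0 = 0 ∧ co W 0 1 ≠ 0 ∧ IsUnit δ ∧ t 0 = W ^ μ * δ ∧
      ((∀ j, c j = 0) → W = V) := by
  set H : ℕ → R2 := fun j => sb U (V + LIM_gam (fun i => c (i + j))) (t j) with hH
  have hs : ∀ j, sb U (U * V) (H j) = U ^ μ * H (j + 1) := by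
    intro j
    have h1 := LIM_step (t j) (t (j + 1)) (fun i => c (i + j)) μ (by
      show cc (c (0 + j)) (t j) = _
      rw [zero_add]
      exact h j)
    rw [hH]
    show sb U (U * V) (sb U (V + LIM_gam (fun i => c (i + j))) (t j)) =
      U ^ μ * sb U (V + LIM_gam (fun i => c (i + (j + 1)))) (t (j + 1))
    rw [h1]
    have h2 : (fun i => c (i + (j + 1))) = fun i => c (i + 1 + j) := by
      funext i
      congr 1
      omega
    rw [h2]
  have hk : ∀ k, k < μ → ∀ i j, co (H j) i k = 0 := by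
    intro k hk i
    induction i using Nat.strong_induction_on with
    | _ i ih =>
      intro j
      rw [LIM_co2 _ _ μ (hs j)]
      split_ifs with h1
      · exact ih _ (by omega) _
      · rfl
  obtain ⟨δ', hδ'⟩ := LEX_dvdV (g := H 0) (N := μ) (fun i k hk' => hk k hk' i 0)
  have hW0 : co (V - LIM_gam c) 0 0 = 0 := by rw [LEX_sub, LEX_V0, LIM_g0, sub_zero]
  have hV1 : co (V + LIM_gam c) 0 0 = 0 := by rw [LEX_add, LEX_V0, LIM_g0, add_zero]
  obtain ⟨G, hG, hGU, hGV⟩ := sb_hom U (V - LIM_gam c) LEX_U0 hW0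
  have h2 : t 0 = (V - LIM_gam c) ^ μ * G δ' := by
    have h3 : H 0 = sb U (V + LIM_gam c) (t 0) := rfl
    have h4 : G (H 0) = t 0 := by
      rw [hG, h3, sb_sb _ _ _ _ LEX_U0 hV1 LEX_U0 hW0]
      conv_rhs => rw [← sb_id (t 0)]
      congr 1
      · rw [← hG, hGU]
      · rw [← hG, map_add, hGV, hG, LIM_sbg _ hW0]
        ring
    rw [← h4, hδ', map_mul, map_pow, hGV]
  refine ⟨V - LIM_gam c, G δ', hW0, ?_, LIM_unit hO _ _ hW0 h2, h2, ?_⟩
  · rw [LEX_sub, LIM_co, if_neg (by omega), sub_zero]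
    have h5 := LEX_Vm 1 1 0 1
    rw [pow_one, mul_one, if_pos le_rfl, LEX_one, if_pos ⟨rfl, rfl⟩] at h5
    rw [h5]
    exact one_ne_zero
  · intro hc
    have h6 : LIM_gam c = 0 := by
      apply LEX_ext
      intro i j
      rw [LIM_co, LEX_zero]
      split_ifs
      · exact hc _
      · rfl
    rw [h6, sub_zero]

/-- The same for the chart at infinity. -/
theorem limi (t : ℕ → R2) (μ : ℕ) (hO : Ord (t 0) μ) (h : ∀ j, ci (t j) = V ^ μ * t (j + 1)) :
    ∃ δ : R2, IsUnit δ ∧ t 0 = U ^ μ * δ := by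
  have h1 : ∀ j a b, co (t j) a b = if μ ≤ a + b then co (t (j + 1)) a (a + b - μ) else 0 := by
    intro j a b
    have h2 := LEX_ci (t j) a (a + b)
    have h3 : sb (U * V) V (t j) = V ^ μ * t (j + 1) := h j
    rw [h3, LEX_Vm, if_pos (by omega : a ≤ a + b), Nat.add_sub_cancel_left] at h2
    exact h2.symm
  have hk : ∀ a, a < μ → ∀ b j, co (t j) a b = 0 := by
    intro a ha b
    induction b using Nat.strong_induction_on with
    | _ b ih =>
      intro j
      rw [h1]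
      split_ifs with h2
      · exact ih _ (by omega) _
      · rfl
  obtain ⟨δ, hδ⟩ := LEX_dvdU (g := t 0) (N := μ) (fun a b ha => hk a ha b 0)
  exact ⟨δ, LIM_unit hO _ _ LEX_U0 hδ, hδ⟩

end Pool.Agent.H56.RE
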