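import Pool.Agent.H56.RE.LFS

/-!
# NOD: nodes, and the points which are not leaves

Proof.  `lf_node`.  `q = ini 2 g`, `c` a simple root.  `cc c g = U^2 * F` (`lex_c`: `AX1 (cc c g) 2 (ec q c)`, `ec q c = 1`; `LEX_dvdU`), `co F 0 0 = co (cc c g) 2 0 = 0`, `co F 0 1 = co (cc c g) 2 1 ≠ 0` (`AX1`, `LEX_Um`).
`ift F`: `θ U = U`, `θ V = F`; `ψ = θ.symm` is the substitution `sb U Y`, `Y = ψ V`, `co Y 0 0 = 0` (`sb_aut`), `sb U Y F = ψ F = V`.  Apply `sb U 0` (i.e. `v = 0`): with `y = sb U 0 Y` (`co y 0 0 = 0`): `sb U y F = sb U 0 V = 0`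
(`sb_sb`).  `γ = U * (y + C c)`: `sb U γ g = sb U y (cc c g) = U^2 * sb U y F = 0` (`sb_sb`: `sb U y (U * (V + C c)) = γ`).
`h = sb U (V + γ) g`: `sb U 0 h = sb U (sb U 0 γ) g = sb U γ g = 0` (`sb U 0 γ = γ` as `sb U 0 (sb U 0 Y) = sb U 0 Y`), so `co h i 0 = 0` for all `i` (`LEX_sb`: `co (sb U 0 h) i 0 = co h i 0`), `h = V * g2` (`LEX_dvdV`).
`co g2 0 0 = co h 0 1 = 0` and `co g2 1 0 = co h 1 1 = q'(c) ≠ 0`: `ini 2 h` is the polynomial with `(ini 2 h)(z) = q(z + c)` because `V + γ = V + c U + (terms of degree ≥ 2)`: e.g. `Hi 2 (γ - C c * U)`; the quadratic part of `h` is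
`g_20 U^2 + g_11 U (V + c U) + g_02 (V + c U)^2`, its coefficient at `UV` is `g_11 + 2 c g_02 = q'(c)`, `q = g_20 + g_11 z + g_02 z^2`, `q(c) = 0`, and `c` is not a double root.  (`g = g_20 U^2 + g_11 U V + g_02 V^2 + g3`, `Hi 3 g3`; `sb_hom`, `sb_Hi`.)
`sb U (V + γ)` is an automorphism (`ift (V + γ)`, `sb_aut`), so by `lf_aut` it is enough to show `Lf (V * g2) 0 0`: `lf_U` with `W = g2`, `m = μ = 1`, `ε = 1`.
`nx_of`: `a = b = 0`: `N ≠ 0` (`co g 0 0 = 0`, `ini 0 g = C (co g 0 0)`).  `N = 1`: `co g 0 1 ≠ 0` or `co g 1 0 ≠ 0` (`ini 1 g ≠ 0`), `lf_V` / `lf_U` with `n = 0`, `μ = 1`, `W = g`.  `N = 2`: if `natDegree (ini 2 g) = 1` then there is a root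
(`ℂ` is algebraically closed) and it is simple; `lf_node`.
`1 ≤ a`, `b = 0`, `g = U^n * s`: if `co s 0 0 ≠ 0` then `s` is a unit, `n > 0` because `co g 0 0 = 0`: `lf_mono`; if `co s 0 0 = 0`, `co s 0 1 ≠ 0`: `lf_V` with `W = s`.  The other cases are similar (`lf_U`, `lf_mono`).
-/

set_option autoImplicit false

namespace Pool.Agent.H56.RE

open Pool.Agent.H56.CT Pool.Agent.H22.T7

theorem NOD_zero0 : co (0 : R2) 0 0 = 0 := LEX_zero 0 0

theorem NOD_C (c : ℂ) (i j : ℕ) : co (MvPowerSeries.C c : R2) i j =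
    if i = 0 ∧ j = 0 then c else 0 := by
  have h : (MvPowerSeries.C c : R2) = c • (1 : R2) := by
    rw [MvPowerSeries.smul_eq_C_mul, mul_one]
  rw [h, LEX_smul, LEX_one]
  split_ifs <;> simp

theorem NOD_sb0 (h : R2) (n : ℕ) : co (sb U 0 h) n 0 = co h n 0 := by
  rw [LEX_sb U 0 LEX_U0 NOD_zero0 h n 0 (n + 1) (by omega), Finset.sum_eq_single 0,
    Finset.sum_eq_single n]
  · have e : (U ^ n * 0 ^ 0 : R2) = U ^ n * V ^ 0 := by rw [pow_zero, pow_zero]
    rw [e, LEX_mono, if_pos ⟨rfl, rfl⟩, mul_one]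
  · intro i _ hi
    have e : (U ^ i * 0 ^ 0 : R2) = U ^ i * V ^ 0 := by rw [pow_zero, pow_zero]
    rw [e, LEX_mono, if_neg (fun h => hi h.1.symm), mul_zero]
  · intro hn
    exact absurd (Finset.mem_range.2 (Nat.lt_succ_self n)) hn
  · intro j _ hj
    apply Finset.sum_eq_zero
    intro i _
    rw [zero_pow hj, mul_zero, LEX_zero, mul_zero]
  · intro h0
    exact absurd (Finset.mem_range.2 (Nat.succ_pos n)) h0

theorem NOD_idem (Y : R2) (hY : co Y 0 0 = 0) : sb U 0 (sb U 0 Y) = sb U 0 Y := by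
  obtain ⟨F, hF, hFU, hFV⟩ := sb_hom U 0 LEX_U0 NOD_zero0
  rw [sb_sb U 0 U 0 LEX_U0 NOD_zero0 LEX_U0 NOD_zero0, ← hF U, ← hF 0, hFU, map_zero]

/-- The branch. -/
theorem NOD_branch (g : R2) (hO : Ord g 2) (c : ℂ) (hc : (ini 2 g).rootMultiplicity c = 1) :
    ∃ y : R2, co y 0 0 = 0 ∧ sb U 0 y = y ∧ sb U (U * (y + MvPowerSeries.C c)) g = 0 := by
  have hax := lex_c hO c
  have hec : ec (ini 2 g) c = 1 := hc
  rw [hec] at hax
  obtain ⟨F, hF⟩ := LEX_dvdU hax.1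
  have hFc : ∀ j, co F 0 j = co (sb U (U * (V + MvPowerSeries.C c)) g) 2 j := by
    intro j
    rw [hF, LEX_Um, if_pos le_rfl, Nat.sub_self]
  have h0 : co F 0 0 = 0 := by
    rw [hFc]
    exact hax.2.1 0 one_pos
  have h1 : co F 0 1 ≠ 0 := by
    rw [hFc]
    exact hax.2.2
  obtain ⟨Y, hY0, -, hY⟩ := ift_right F h0 h1
  have hy0 : co (sb U 0 Y) 0 0 = 0 := by rw [sb_co U 0 LEX_U0 NOD_zero0, hY0]
  refine ⟨sb U 0 Y, hy0, NOD_idem Y hY0, ?_⟩
  obtain ⟨G, hG, hGU, hGV⟩ := sb_hom U 0 LEX_U0 NOD_zero0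
  obtain ⟨H, hH, hHU, hHV⟩ := sb_hom U (sb U 0 Y) LEX_U0 hy0
  have e1 : sb U (sb U 0 Y) F = 0 := by
    have e2 := sb_sb U Y U 0 LEX_U0 hY0 LEX_U0 NOD_zero0 F
    rw [hY, ← hG V, hGV, ← hG U, hGU] at e2
    exact e2.symm
  have hw : co (U * (V + MvPowerSeries.C c)) 0 0 = 0 := by
    have h : (U * (V + MvPowerSeries.C c) : R2) = U ^ 1 * (V + MvPowerSeries.C c) := by
      rw [pow_one]
    rw [h, LEX_Um, if_neg (by omega)]
  have e3 := sb_sb U (U * (V + MvPowerSeries.C c)) U (sb U 0 Y) LEX_U0 hw LEX_U0 hy0 g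
  have e4 : sb U (sb U 0 Y) (U * (V + MvPowerSeries.C c)) =
      U * (sb U 0 Y + MvPowerSeries.C c) := by
    rw [← hH, map_mul, map_add, hHU, hHV, SBB_C]
  have e5 : sb U (sb U 0 Y) U = U := by rw [← hH, hHU]
  rw [e4, e5, hF, ← hH, map_mul, map_pow, hHU, hH, e1, mul_zero] at e3
  exact e3.symm

theorem NOD_gam (y : R2) (c : ℂ) (j : ℕ) : co (U * (y + MvPowerSeries.C c)) 0 j = 0 := by
  have h : (U * (y + MvPowerSeries.C c) : R2) = U ^ 1 * (y + MvPowerSeries.C c) := by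
    rw [pow_one]
  rw [h, LEX_Um, if_neg (by omega)]

theorem NOD_gam1 (y : R2) (hy : co y 0 0 = 0) (c : ℂ) :
    co (U * (y + MvPowerSeries.C c)) 1 0 = c := by
  have h : (U * (y + MvPowerSeries.C c) : R2) = U ^ 1 * (y + MvPowerSeries.C c) := by
    rw [pow_one]
  rw [h, LEX_Um, if_pos le_rfl, Nat.sub_self, LEX_add, hy, NOD_C, if_pos ⟨rfl, rfl⟩, zero_add]

theorem NOD_V (i j : ℕ) : co V i j = if i = 0 ∧ j = 1 then 1 else 0 := by
  have h : (V : R2) = U ^ 0 * V ^ 1 := by rw [pow_zero, one_mul, pow_one]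
  rw [h, LEX_mono]

theorem NOD_hi {g : R2} {N : ℕ} (h : ∀ i j, i + j < N → co g i j = 0) : Hi N g := by
  intro ρ hρ
  rw [LEX_coeff] at hρ
  by_contra hc
  apply hρ
  apply h
  rw [← LEX_deg]
  omega

theorem NOD_hi' {g : R2} {N : ℕ} (h : Hi N g) (i j : ℕ) (hij : i + j < N) : co g i j = 0 := by
  by_contra hc
  have h1 := h (Finsupp.single 0 i + Finsupp.single 1 j) hc
  rw [map_add, Finsupp.degree_single, Finsupp.degree_single] at h1
  omega

/-- The mixed coefficient. -/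
theorem NOD_co11 (g γ : R2) (c : ℂ) (hg : ∀ i j, i + j < 2 → co g i j = 0)
    (h0 : ∀ j, co γ 0 j = 0) (h1 : co γ 1 0 = c) :
    co (sb U (V + γ) g) 1 1 = co g 1 1 + 2 * c * co g 0 2 := by
  have hY : co (V + γ) 0 0 = 0 := by rw [LEX_add, h0, LEX_V0, add_zero]
  obtain ⟨δ, hδ⟩ : ∃ δ, γ = U ^ 1 * δ := by
    apply LEX_dvdU
    intro i j hi
    have : i = 0 := by omega
    rw [this, h0]
  have hd : co δ 0 0 = c := by
    rw [← h1, hδ, LEX_Um, if_pos le_rfl, Nat.sub_self]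
  have e1 : co (V + γ) 0 1 = 1 := by rw [LEX_add, h0, NOD_V, if_pos ⟨rfl, rfl⟩, add_zero]
  have e2 : (V + γ) ^ 2 = V ^ 2 * 1 + (V ^ 1 * (2 * γ) + U ^ 2 * δ ^ 2) := by
    rw [hδ]
    ring
  have e3 : ∀ i, i ≤ 1 → co ((V + γ) ^ 2) i 1 = 2 * co γ i 0 := by
    intro i hi
    rw [e2, LEX_add, LEX_add, LEX_Vm, LEX_Vm, LEX_Um, if_neg (by omega), if_pos le_rfl,
      if_neg (by omega), Nat.sub_self]
    have e4 : (2 * γ : R2) = γ + γ := two_mul γ
    rw [e4, LEX_add]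
    ring
  rw [LEX_sb U _ LEX_U0 hY g 1 1 3 (by omega)]
  simp only [Finset.sum_range_succ, Finset.sum_range_zero]
  rw [hg 0 0 (by omega), hg 1 0 (by omega), hg 0 1 (by omega)]
  simp only [LEX_Um]
  simp only [pow_zero, pow_one]
  rw [e3 1 le_rfl, e3 0 (by omega), h0, h1]
  simp [e1, LEX_one]
  ring

/-- Nodes are leaves. -/
theorem lf_node (g : R2) (hO : Ord g 2) (c : ℂ) (hc : (ini 2 g).rootMultiplicity c = 1) :
    Lf g 0 0 := by
  obtain ⟨y, hy0, hyy, hy⟩ := NOD_branch g hO c hc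
  obtain ⟨γ, hγ⟩ : ∃ γ, γ = U * (y + MvPowerSeries.C c) := ⟨_, rfl⟩
  rw [← hγ] at hy
  have g0 : ∀ j, co γ 0 j = 0 := by
    intro j
    rw [hγ]
    exact NOD_gam y c j
  have g1 : co γ 1 0 = c := by
    rw [hγ]
    exact NOD_gam1 y hy0 c
  have hV0 : co (V + γ) 0 0 = 0 := by rw [LEX_add, g0, LEX_V0, add_zero]
  have hV1 : co (V + γ) 0 1 ≠ 0 := by
    rw [LEX_add, g0, NOD_V, if_pos ⟨rfl, rfl⟩, add_zero]
    exact one_ne_zero
  obtain ⟨G, hG, hGU, hGV⟩ := sb_hom U 0 LEX_U0 NOD_zero0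
  have hγγ : sb U 0 γ = γ := by
    rw [hγ, ← hG, map_mul, map_add, hGU, SBB_C, hG, hyy]
  obtain ⟨h, hh⟩ : ∃ h, h = sb U (V + γ) g := ⟨_, rfl⟩
  have k1 : sb U 0 h = 0 := by
    rw [hh, sb_sb U (V + γ) U 0 LEX_U0 hV0 LEX_U0 NOD_zero0, ← hG U, hGU, ← hG (V + γ), map_add,
      hGV, hG, hγγ, zero_add, hy]
  have k2 : ∀ i, co h i 0 = 0 := by
    intro i
    rw [← NOD_sb0, k1, LEX_zero]
  obtain ⟨g2, hg2⟩ := LEX_dvdV (g := h) (N := 1) (fun i j hj => by
    have : j = 0 := by omega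
    rw [this, k2])
  have k3 : Hi 2 h := by
    rw [hh]
    exact sb_Hi U (V + γ) LEX_U0 hV0 2 g (NOD_hi hO.1)
  have k4 : co g2 0 0 = 0 := by
    have e : co h 0 1 = co g2 0 0 := by rw [hg2, LEX_Vm, if_pos le_rfl, Nat.sub_self]
    rw [← e]
    exact NOD_hi' k3 0 1 (by omega)
  have k5 : co g2 1 0 ≠ 0 := by
    have e : co h 1 1 = co g2 1 0 := by rw [hg2, LEX_Vm, if_pos le_rfl, Nat.sub_self]
    rw [← e, hh, NOD_co11 g γ c hO.1 g0 g1]
    have ht := (LEX_trail (ini 2 g) c hO.2).2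
    rw [hc, Polynomial.taylor_coeff_one] at ht
    have e2 : (Polynomial.derivative (ini 2 g)).eval c = co g 1 1 + 2 * c * co g 0 2 := by
      unfold ini
      simp only [Finset.sum_range_succ, Finset.sum_range_zero, Polynomial.derivative_add,
        Polynomial.derivative_monomial, Polynomial.eval_add, Polynomial.eval_monomial]
      simp
      ring
    rw [e2] at ht
    exact ht
  obtain ⟨θ, hθU, hθV⟩ := ift (V + γ) hV0 hV1
  obtain ⟨-, -, hθ⟩ := sb_aut θ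
  apply lf_aut θ
  rw [hθ, hθU, hθV, ← hh, hg2]
  have hl := lf_U 1 isUnit_one 1 1 one_pos g2 k4 k5 0
  rw [one_mul, pow_one g2] at hl
  exact hl

/-- Points which are not leaves do not have normal crossings. -/
theorem nx_of (g : R2) (h0 : co g 0 0 = 0) (a b N : ℕ) (hO : Ord g N) (h : ¬ Lf g a b) :
    NX g a b N := by
  have hunit : ∀ s : R2, co s 0 0 ≠ 0 → IsUnit s := by
    intro s hs
    rw [SBB_coe] at hs
    exact MvPowerSeries.isUnit_iff_constantCoeff.2 (isUnit_iff_ne_zero.2 hs)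
  refine ⟨fun ha hb => ?_, fun ha hb n s hg => ?_, fun ha hb n s hg => ?_,
    fun ha hb n m s hg hs => ?_⟩
  · subst ha
    subst hb
    by_cases h3 : 3 ≤ N
    · exact Or.inl h3
    right
    have hN : N = 0 ∨ N = 1 ∨ N = 2 := by omega
    rcases hN with rfl | rfl | rfl
    · exfalso
      obtain ⟨j, hj, hne⟩ := LEX_ord_ex hO
      have hj0 : j = 0 := by omega
      rw [hj0] at hne
      exact hne h0
    · exfalso
      obtain ⟨j, hj, hne⟩ := LEX_ord_ex hO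
      have hj0 : j = 0 ∨ j = 1 := by omega
      rcases hj0 with rfl | rfl
      · apply h
        have hl := lf_U 1 isUnit_one 0 1 one_pos g h0 hne 0
        rw [one_mul, pow_zero, one_mul, pow_one] at hl
        exact hl
      · apply h
        have hl := lf_V 1 isUnit_one 0 1 one_pos g h0 hne 0
        rw [one_mul, pow_zero, one_mul, pow_one] at hl
        exact hl
    · have hroot : ∀ c, (ini 2 g).rootMultiplicity c ≠ 1 := fun c hc => h (lf_node g hO c hc)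
      refine ⟨rfl, fun hd => ?_, hroot⟩
      obtain ⟨c, hc⟩ := IsAlgClosed.exists_root (ini 2 g) (by
        rw [Polynomial.degree_eq_natDegree hO.2, hd]
        exact one_ne_zero)
      have h1 : 0 < (ini 2 g).rootMultiplicity c := (Polynomial.rootMultiplicity_pos hO.2).2 hc
      have h2 : (ini 2 g).rootMultiplicity c ≤ (ini 2 g).natDegree := (lex_rt hO c).1
      exact hroot c (by omega)
  · subst hb
    have hs0 : co s 0 0 = 0 := by
      by_contra hs0
      apply h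
      have hn : 0 < n := by
        rcases Nat.eq_zero_or_pos n with rfl | hn
        · rw [hg, pow_zero, one_mul] at h0
          exact absurd h0 hs0
        · exact hn
      have hl := lf_mono s (hunit s hs0) n 0 (Or.inl hn) a 0
      rw [pow_zero, mul_one, mul_comm, ← hg] at hl
      exact hl
    refine ⟨hs0, ?_⟩
    by_contra hs1
    apply h
    have hl := lf_V 1 isUnit_one n 1 one_pos s hs0 hs1 a
    rw [one_mul, pow_one, ← hg] at hl
    exact hl
  · subst ha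
    have hs0 : co s 0 0 = 0 := by
      by_contra hs0
      apply h
      have hn : 0 < n := by
        rcases Nat.eq_zero_or_pos n with rfl | hn
        · rw [hg, pow_zero, one_mul] at h0
          exact absurd h0 hs0
        · exact hn
      have hl := lf_mono s (hunit s hs0) 0 n (Or.inr hn) 0 b
      rw [pow_zero, mul_one, mul_comm, ← hg] at hl
      exact hl
    refine ⟨hs0, ?_⟩
    by_contra hs1
    apply h
    have hl := lf_U 1 isUnit_one n 1 one_pos s hs0 hs1 b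
    rw [one_mul, pow_one, ← hg] at hl
    exact hl
  · apply h
    have hnm : 0 < n ∨ 0 < m := by
      by_contra hc
      push Not at hc
      have hn : n = 0 := by omega
      have hm : m = 0 := by omega
      rw [hg, hn, hm, pow_zero, pow_zero, one_mul, one_mul, SBB_coe] at h0
      exact (isUnit_iff_ne_zero.1 (MvPowerSeries.isUnit_iff_constantCoeff.1 hs)) h0
    have hl := lf_mono s hs n m hnm a b
    have e : s * U ^ n * V ^ m = g := by
      rw [hg]
      ring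
    rw [e] at hl
    exact hl

end Pool.Agent.H56.RE
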