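import Pool.Agent.H56.RE.TER
import Pool.Agent.H56.RE.NOD

/-!
# REX: existence of the resolution trees

Proof.  States `x = (g, a, b)` with `g ≠ 0`, `co g 0 0 = 0`.  The relation `R x' x`: `¬ Lf x` and `Stp d x x'` for some `d`.  `R` is well-founded: otherwise there is an infinite sequence (`RelEmbedding.wellFounded_iff_isEmpty` /
`WellFounded.wellFounded_iff_no_descending_seq`, `exists_not_acc_lt_of_not_acc`), contradicting `no_inf`.  `WellFounded.induction`: if `Lf g a b` then `Res.leaf`.  Otherwise `Ord g N` (`lex_ord`), `N ≥ 1` (`co g 0 0 = 0`), `nx_of`, `S = roots of ini N g` (a Finset,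
`ini N g ≠ 0`) together with `0`; the charts `cc c g`, `ci g` are `≠ 0` and have constant term `0` (`lex_c`, `lex_i2`: `AX1`, `AX2`; `N ≥ 1`), so by the induction hypothesis there are `M c`, `Mi`; `Res.blow`.
-/

set_option autoImplicit false

namespace Pool.Agent.H56.RE

open Pool.Agent.H56.CT Pool.Agent.H22.T7

/-- The relation of the induction. -/
def REXR (x' x : R2 × ℕ × ℕ) : Prop :=
  x.1 ≠ 0 ∧ co x.1 0 0 = 0 ∧ ¬ Lf x.1 x.2.1 x.2.2 ∧
    ∃ d, Stp d x.1 x.2.1 x.2.2 x'.1 x'.2.1 x'.2.2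

theorem REX_wf : WellFounded REXR := by
  rw [wellFounded_iff_isEmpty_descending_chain]
  refine ⟨fun F => ?_⟩
  obtain ⟨f, hf⟩ := F
  choose h1 h2 h3 d hd using hf
  exact no_inf (fun i => (f i).1) (fun i => (f i).2.1) (fun i => (f i).2.2) d (h1 0) h2 hd h3

theorem REX_step (x : R2 × ℕ × ℕ)
    (IH : ∀ x', REXR x' x → x'.1 ≠ 0 → co x'.1 0 0 = 0 → ∃ M, Res x'.1 x'.2.1 x'.2.2 M)
    (hg : x.1 ≠ 0) (h0 : co x.1 0 0 = 0) : ∃ M, Res x.1 x.2.1 x.2.2 M := by
  obtain ⟨g, a, b⟩ := x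
  change g ≠ 0 at hg
  change co g 0 0 = 0 at h0
  change ∃ M, Res g a b M
  by_cases hL : Lf g a b
  · obtain ⟨ψ, N1, N2, h, hu, hv⟩ := hL
    exact ⟨_, Res.leaf g a b ψ N1 N2 h hu hv⟩
  obtain ⟨N, hN⟩ := lex_ord g hg
  have hx := nx_of g h0 a b N hN hL
  have hN1 : 0 < N := by
    rcases Nat.eq_zero_or_pos N with h | h
    · exfalso
      subst h
      apply hN.2
      ext j
      rw [LEX_ini, Polynomial.coeff_zero]
      split_ifs with hj
      · have hj0 : j = 0 := by omega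
        rw [hj0]
        exact h0
      · rfl
    · exact h
  have hc : ∀ c : ℂ, ∃ M, Res (sb U (U * (V + MvPowerSeries.C c)) g) (a + b + 1)
      (if c = 0 then b else 0) M := by
    intro c
    obtain ⟨k1, k2, k3⟩ := lex_c hN c
    refine IH (sb U (U * (V + MvPowerSeries.C c)) g, a + b + 1, if c = 0 then b else 0)
      ⟨hg, h0, hL, some c, rfl, rfl, rfl⟩ ?_ (k1 0 0 hN1)
    intro h
    change sb U (U * (V + MvPowerSeries.C c)) g = 0 at h
    rw [h, LEX_zero] at k3
    exact k3 rfl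
  have hi : ∃ M, Res (sb (U * V) V g) a (a + b + 1) M := by
    obtain ⟨k1, k2, k3⟩ := lex_i2 hN
    refine IH (sb (U * V) V g, a, a + b + 1)
      ⟨hg, h0, hL, none, rfl, rfl, rfl⟩ ?_ (k1 0 0 hN1)
    intro h
    change sb (U * V) V g = 0 at h
    rw [h, LEX_zero] at k3
    exact k3 rfl
  choose M hM using hc
  obtain ⟨Mi, hMi⟩ := hi
  classical
  refine ⟨_, Res.blow g a b N hN hx (insert 0 (ini N g).roots.toFinset) (fun c h => ?_)
    (fun _ => Finset.mem_insert_self _ _) M Mi (fun c _ => hM c) hMi⟩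
  apply Finset.mem_insert_of_mem
  rw [Multiset.mem_toFinset, Polynomial.mem_roots hN.2]
  exact h

/-- Every germ has a resolution tree. -/
theorem res_exists' (g : R2) (a b : ℕ) (hg : g ≠ 0) (h0 : co g 0 0 = 0) : ∃ M, Res g a b M := by
  have h := REX_wf.induction (C := fun x => x.1 ≠ 0 → co x.1 0 0 = 0 →
    ∃ M, Res x.1 x.2.1 x.2.2 M) (g, a, b) (fun x IH => REX_step x IH)
  exact h hg h0

theorem res_exists (f : R2) (hf : f ≠ 0) (h0 : co f 0 0 = 0) : ∃ M, Res f 0 0 M :=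
  res_exists' f 0 0 hf h0

end Pool.Agent.H56.RE
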