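import Pool.Agent.H56.RE.EDefs

/-!
# STP: the strict transforms

Proof.  `st_init`: if `a ≥ 1`: take out the maximal power of `U` (`g ≠ 0`: there is a smallest `n` with `co g n j ≠ 0` for some `j`; `LEX_dvdU`, `LEX_Um`), otherwise `n = 0`; then the same for `V` if `b ≥ 1` (taking out powers of `V` keeps
`∃ e, co s 0 e ≠ 0`).  `ε = 1`.
`st_c`: `lex_c`: `AX1 (cc c s) μ e`, `e = ec (ini μ s) c`, so `cc c s = U^μ * s'` (`LEX_dvdU`), `AX1 s' 0 e` (`LEX_Um`).  `cc c` is an algebra homomorphism (`sb_hom`): `cc c g = cc c ε * U^n * (U * (V + C c))^m * (U^μ * s')`.  If `c = 0`: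
`= ε' U^{n+m+μ} V^m s'`.  If `c ≠ 0` then `V + C c` is a unit: `ε' = cc c ε * (V + C c)^m`, `m' = 0`.  `vb`: `b' ≥ 1` only if `c = 0`, `b ≥ 1`: `AX2 s 0 e2` for some `e2` (the smallest `e` with `co s e 0 ≠ 0`), `lex_c2`: `AX2 (cc 0 s) 0 e2`, so
`co (cc 0 s) e2 0 ≠ 0`, and `U^μ * s' = cc 0 s` gives `co s' (e2 - μ) 0 ≠ 0` (`LEX_Um`).  (`b' = 0` if `c ≠ 0`; if `c = 0`, `b = 0` then `m = 0`.)
`st_i`: `lex_i2`: `AX2 (ci s) μ (μ - natDegree (ini μ s))`, `ci s = V^μ * s'`, `AX2 s' 0 (μ - natDegree)`; `ci g = ci ε * (U V)^n * V^m * V^μ s'`; `ua` by `lex_i1`.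
-/

set_option autoImplicit false

namespace Pool.Agent.H56.RE

open Pool.Agent.H56.CT Pool.Agent.H22.T7

theorem STP_exU {s : R2} (hs : s ≠ 0) : ∃ (n : ℕ) (s' : R2), s = U ^ n * s' ∧ ∃ e, co s' 0 e ≠ 0 := by
  classical
  have hex : ∃ i, ∃ j, co s i j ≠ 0 := by
    by_contra hc
    push Not at hc
    apply hs
    apply LEX_ext
    intro i j
    rw [hc i j, LEX_zero]
  obtain ⟨s', h⟩ := LEX_dvdU (g := s) (N := Nat.find hex) (by
    intro i j hi
    by_contra hne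
    exact Nat.find_min hex hi ⟨j, hne⟩)
  obtain ⟨e, he⟩ := Nat.find_spec hex
  refine ⟨Nat.find hex, s', h, e, ?_⟩
  intro h0
  apply he
  nth_rewrite 1 [h]
  rw [LEX_Um, if_pos le_rfl, Nat.sub_self, h0]

theorem STP_exV {s : R2} (hs : s ≠ 0) : ∃ (n : ℕ) (s' : R2), s = V ^ n * s' ∧ ∃ e, co s' e 0 ≠ 0 := by
  classical
  have hex : ∃ j, ∃ i, co s i j ≠ 0 := by
    by_contra hc
    push Not at hc
    apply hs
    apply LEX_ext
    intro i j
    rw [hc j i, LEX_zero]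
  obtain ⟨s', h⟩ := LEX_dvdV (g := s) (N := Nat.find hex) (by
    intro i j hj
    by_contra hne
    exact Nat.find_min hex hj ⟨i, hne⟩)
  obtain ⟨e, he⟩ := Nat.find_spec hex
  refine ⟨Nat.find hex, s', h, e, ?_⟩
  intro h0
  apply he
  nth_rewrite 1 [h]
  rw [LEX_Vm, if_pos le_rfl, Nat.sub_self, h0]

theorem STP_ax1 {s : R2} (h : ∃ e, co s 0 e ≠ 0) : ∃ e, AX1 s 0 e := by
  classical
  refine ⟨Nat.find h, fun i j hi => absurd hi (Nat.not_lt_zero _), fun j hj => ?_, Nat.find_spec h⟩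
  by_contra hne
  exact Nat.find_min h hj hne

theorem STP_ax2 {s : R2} (h : ∃ e, co s e 0 ≠ 0) : ∃ e, AX2 s 0 e := by
  classical
  refine ⟨Nat.find h, fun i j hj => absurd hj (Nat.not_lt_zero _), fun j hj => ?_, Nat.find_spec h⟩
  by_contra hne
  exact Nat.find_min h hj hne

theorem st_init (g : R2) (hg : g ≠ 0) (a b : ℕ) : ∃ s n m, St g a b s n m := by
  -- first U
  obtain ⟨s1, n, h1, hn, hu⟩ : ∃ (s1 : R2) (n : ℕ), g = U ^ n * s1 ∧ (a = 0 → n = 0) ∧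
      (1 ≤ a → ∃ e, co s1 0 e ≠ 0) := by
    by_cases ha : a = 0
    · exact ⟨g, 0, by rw [pow_zero, one_mul], fun _ => rfl, fun h => by omega⟩
    · obtain ⟨n, s', h, he⟩ := STP_exU hg
      exact ⟨s', n, h, fun h0 => absurd h0 ha, fun _ => he⟩
  have hs1 : s1 ≠ 0 := by
    rintro rfl
    exact hg (by rw [h1, mul_zero])
  by_cases hb : b = 0
  · refine ⟨s1, n, 0, ⟨1, isUnit_one, ?_⟩, hn, fun _ => rfl, hu, fun h => by omega⟩
    rw [pow_zero, mul_one, one_mul, h1]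
  · obtain ⟨m, s', h, he⟩ := STP_exV hs1
    refine ⟨s', n, m, ⟨1, isUnit_one, ?_⟩, hn, fun h0 => absurd h0 hb, ?_, fun _ => he⟩
    · rw [one_mul, h1, h, mul_assoc]
    · intro ha
      obtain ⟨e, he2⟩ := hu ha
      rw [h, LEX_Vm] at he2
      by_cases h3 : m ≤ e
      · rw [if_pos h3] at he2
        exact ⟨_, he2⟩
      · rw [if_neg h3] at he2
        exact absurd rfl he2

theorem STP_cY (c : ℂ) : co (U * (V + MvPowerSeries.C c)) 0 0 = 0 := by
  have h : (U * (V + MvPowerSeries.C c) : R2) = U ^ 1 * (V + MvPowerSeries.C c) := by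
    rw [pow_one]
  rw [h, LEX_Um, if_neg (by omega)]

theorem STP_cX : co (U * V) 0 0 = 0 := by
  have h : (U * V : R2) = U ^ 1 * V := by rw [pow_one]
  rw [h, LEX_Um, if_neg (by omega)]

theorem STP_unit {c : ℂ} (hc : c ≠ 0) : IsUnit (V + MvPowerSeries.C c : R2) := by
  rw [MvPowerSeries.isUnit_iff_constantCoeff, map_add]
  simp [hc]

theorem st_c (g : R2) (a b : ℕ) (s : R2) (n m μ : ℕ) (h : St g a b s n m) (hO : Ord s μ)
    (c : ℂ) : ∃ s' m', cc c s = U ^ μ * s' ∧ AX1 s' 0 (ec (ini μ s) c) ∧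
      St (cc c g) (a + b + 1) (if c = 0 then b else 0) s' (n + m + μ) m' := by
  have hax := lex_c hO c
  obtain ⟨s', hs'⟩ := LEX_dvdU hax.1
  change cc c s = U ^ μ * s' at hs'
  have hco : ∀ j, co (cc c s) μ j = co s' 0 j := by
    intro j
    rw [hs', LEX_Um, if_pos le_rfl, Nat.sub_self]
  have hax' : AX1 s' 0 (ec (ini μ s) c) := by
    refine ⟨fun i j hi => absurd hi (Nat.not_lt_zero _), fun j hj => ?_, ?_⟩
    · rw [← hco]
      exact hax.2.1 j hj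
    · rw [← hco]
      exact hax.2.2
  obtain ⟨F, hF, hFU, hFV⟩ := sb_hom U (U * (V + MvPowerSeries.C c)) LEX_U0 (STP_cY c)
  obtain ⟨ε, hε, hg⟩ := h.eq
  have hFs : F s = U ^ μ * s' := by
    rw [hF]
    exact hs'
  have hFg : cc c g = F ε * U ^ n * (U * (V + MvPowerSeries.C c)) ^ m * (U ^ μ * s') := by
    have h1 : cc c g = F g := (hF g).symm
    rw [h1, hg, map_mul, map_mul, map_mul, map_pow, map_pow, hFU, hFV, hFs]
  have hFε : IsUnit (F ε) := hε.map F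
  by_cases hc : c = 0
  · subst hc
    rw [if_pos rfl]
    refine ⟨s', m, hs', hax', ⟨F ε, hFε, ?_⟩, fun h0 => by omega, h.b0, fun _ => ⟨_, hax'.2.2⟩, ?_⟩
    · rw [hFg, map_zero, add_zero]
      ring
    · intro hb
      obtain ⟨e2, he2⟩ := STP_ax2 (h.vb hb)
      have h2 := (lex_c2 he2).2.2
      change co (cc 0 s) (e2 + 0) 0 ≠ 0 at h2
      rw [add_zero, hs', LEX_Um] at h2
      by_cases h3 : μ ≤ e2
      · rw [if_pos h3] at h2
        exact ⟨_, h2⟩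
      · rw [if_neg h3] at h2
        exact absurd rfl h2
  · rw [if_neg hc]
    refine ⟨s', 0, hs', hax', ⟨F ε * (V + MvPowerSeries.C c) ^ m, hFε.mul ((STP_unit hc).pow m), ?_⟩,
      fun h0 => by omega, fun _ => rfl, fun _ => ⟨_, hax'.2.2⟩, fun h0 => by omega⟩
    rw [hFg, mul_pow]
    ring

theorem st_i (g : R2) (a b : ℕ) (s : R2) (n m μ : ℕ) (h : St g a b s n m) (hO : Ord s μ) :
    ∃ s' n', ci s = V ^ μ * s' ∧ AX2 s' 0 (μ - (ini μ s).natDegree) ∧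
      St (ci g) a (a + b + 1) s' n' (n + m + μ) := by
  have hax := lex_i2 hO
  obtain ⟨s', hs'⟩ := LEX_dvdV hax.1
  change ci s = V ^ μ * s' at hs'
  have hco : ∀ j, co (ci s) j μ = co s' j 0 := by
    intro j
    rw [hs', LEX_Vm, if_pos le_rfl, Nat.sub_self]
  have hax' : AX2 s' 0 (μ - (ini μ s).natDegree) := by
    refine ⟨fun i j hi => absurd hi (Nat.not_lt_zero _), fun j hj => ?_, ?_⟩
    · rw [← hco]
      exact hax.2.1 j hj
    · rw [← hco]
      exact hax.2.2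
  obtain ⟨F, hF, hFU, hFV⟩ := sb_hom (U * V) V STP_cX LEX_V0
  obtain ⟨ε, hε, hg⟩ := h.eq
  have hFs : F s = V ^ μ * s' := by
    rw [hF]
    exact hs'
  have hFg : ci g = F ε * (U * V) ^ n * V ^ m * (V ^ μ * s') := by
    have h1 : ci g = F g := (hF g).symm
    rw [h1, hg, map_mul, map_mul, map_mul, map_pow, map_pow, hFU, hFV, hFs]
  have hFε : IsUnit (F ε) := hε.map F
  refine ⟨s', n, hs', hax', ⟨F ε, hFε, ?_⟩, h.a0, fun h0 => by omega, ?_, fun _ => ⟨_, hax'.2.2⟩⟩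
  · rw [hFg]
    ring
  · intro ha
    obtain ⟨e1, he1⟩ := STP_ax1 (h.ua ha)
    have h2 := (lex_i1 he1).2.2
    change co (ci s) 0 (0 + e1) ≠ 0 at h2
    rw [zero_add, hs', LEX_Vm] at h2
    by_cases h3 : μ ≤ e1
    · rw [if_pos h3] at h2
      exact ⟨_, h2⟩
    · rw [if_neg h3] at h2
      exact absurd rfl h2

end Pool.Agent.H56.RE
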