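import Pool.Agent.H56.RE.LFS
import Pool.Agent.H56.RE.LIM
import Pool.Agent.H56.RE.STP

/-!
# TER: the resolution process stops

Proof.  Suppose `g`, `a`, `b`, `d` are as in `no_inf`.  By `st_init`, `st_c`, `st_i` and recursion choose `s i`, `n i`, `m i`, `μ i` with `St (g i) (a i) (b i) (s i) (n i) (m i)`, `Ord (s i) (μ i)` (`lex_ord`; `s i ≠ 0`: `g i ≠ 0`, i.e. `Ord (s i) (μ i)` is carried along; `s'`
is `≠ 0` by `AX1`/`AX2`), `cc c (s i) = U^(μ i) * s (i+1)` and `AX1 (s (i+1)) 0 (ec (ini (μ i) (s i)) c)` if `d i = some c`, `ci (s i) = V^(μ i) * s (i+1)` and `AX2 (s (i+1)) 0 (μ i - natDegree (ini (μ i) (s i)))` if `d i = none`.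
(Recursion on a subtype: states `(g, a, b, s, n, m, μ)`; e.g. `exists_seq`-style, or state: `∃ f : ℕ → R2 × ℕ × ℕ × ℕ, ∀ i, P i (f i) ∧ Q i (f i) (f (i+1))` from `∃ x, P 0 x` and `∀ i x, P i x → ∃ y, P (i+1) y ∧ Q i x y`, by `Nat.rec` with `Classical.choose`.)
(1) `μ i ≥ 1`: otherwise `s i` is a unit (`co (s i) 0 0 ≠ 0`), `g i = unit * U^n V^m` with `n + m > 0` because `co (g i) 0 0 = 0` (`g0`): `lf_mono`, contradiction to `hnl`.  (`co (g i) 0 0 = 0` is a hypothesis.)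
(2) `μ (i+1) ≤ μ i`: `AX1 (s (i+1)) 0 e` with `e = ec .. ≤ natDegree ≤ μ i` (`lex_rt`, `ini_deg`): `co (s (i+1)) 0 e ≠ 0`, so `μ (i+1) ≤ e` (`lex_deg`: `N ≤ N1 + e1`); similarly `AX2` (`lex_deg2`).  So `μ` is eventually constant: `i0`, `μ i = μ` for `i ≥ i0`
(a non-increasing sequence of natural numbers; e.g. `WellFounded.min` of its range).
(3) For `i ≥ i0`: if `d i = some c` then `e = μ`: `AX1 (s (i+1)) 0 μ`, `co (s (i+1)) 0 μ ≠ 0`, the coefficient of `z^μ` in `ini μ (s (i+1))` is `≠ 0` (`LEX_ini`), so `natDegree = μ`; if moreover `d (i+1) = none` then `AX2 (s (i+2)) 0 0`, `co (s (i+2)) 0 0 ≠ 0`,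
`μ (i+2) = 0`, a contradiction to (1).  So `d i = some _` implies `d (i+1) = some _` for `i ≥ i0`.
(4) Case A: `d i = none` for all `i ≥ i0`.  `limi` for `t j = s (i0 + 1 + j)`: `s (i0+1) = U^μ * δ`.  If `a (i0+1) ≥ 1`: `co (s (i0+1)) 0 e ≠ 0` for some `e` (`ua`), a contradiction (`LEX_Um`, `μ ≥ 1`).  If `a (i0+1) = 0`: `n = 0`, `g (i0+1) = (ε δ) V^m U^μ`: `lf_mono`.
(5) Case B: there is `i1 ≥ i0` with `d i = some (c i)` for all `i ≥ i1`.  Then `a i ≥ 1` for `i > i1`.  If `b i = 0` for some `i > i1` then take `t j = s (i + j)`, `lim`: `s i = W^μ * δ`, `m i = 0` (`b0`), `g i = (ε δ) U^n W^μ`: `lf_V`, contradiction.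
Otherwise `b i ≥ 1` for all `i > i1`, so `c i = 0` for all `i > i1` (`b (i+1) = if c i = 0 then b i else 0`); `lim` for `t j = s (i1 + 1 + j)`: `W = V`, `s (i1+1) = V^μ * δ`, a contradiction to `vb` (`LEX_Vm`).
-/

set_option autoImplicit false

namespace Pool.Agent.H56.RE

open Pool.Agent.H56.CT Pool.Agent.H22.T7

theorem TER_seq {α : Type*} (P : ℕ → α → Prop) (Q : ℕ → α → α → Prop) (h0 : ∃ x, P 0 x)
    (h : ∀ i x, P i x → ∃ y, P (i + 1) y ∧ Q i x y) :
    ∃ f : ℕ → α, ∀ i, P i (f i) ∧ Q i (f i) (f (i + 1)) := by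
  classical
  obtain ⟨x0, hx0⟩ := h0
  choose F hF using h
  let f : (i : ℕ) → {x // P i x} := fun i =>
    Nat.rec (motive := fun i => {x // P i x}) ⟨x0, hx0⟩ (fun i x => ⟨F i x.1 x.2, (hF i x.1 x.2).1⟩) i
  exact ⟨fun i => (f i).1, fun i => ⟨(f i).2, (hF i (f i).1 (f i).2).2⟩⟩

theorem TER_unit {s : R2} : IsUnit s ↔ co s 0 0 ≠ 0 := by
  rw [MvPowerSeries.isUnit_iff_constantCoeff, isUnit_iff_ne_zero]
  have e : co s 0 0 = MvPowerSeries.constantCoeff s := by
    unfold co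
    rw [Finsupp.single_zero, Finsupp.single_zero, add_zero, MvPowerSeries.coeff_zero_eq_constantCoeff]
  rw [e]

theorem TER_anti (μ : ℕ → ℕ) (h : ∀ i, μ (i + 1) ≤ μ i) : ∃ i0, ∀ i, i0 ≤ i → μ i = μ i0 := by
  have ha : Antitone μ := antitone_nat_of_succ_le h
  obtain ⟨i0, hi0⟩ : ∃ i0, ∀ i, μ i0 ≤ μ i := by
    have hn : (Set.range μ).Nonempty := ⟨μ 0, 0, rfl⟩
    obtain ⟨i0, hi⟩ := Nat.sInf_mem hn
    exact ⟨i0, fun i => hi ▸ Nat.sInf_le ⟨i, rfl⟩⟩
  exact ⟨i0, fun i hi => le_antisymm (ha hi) (hi0 i)⟩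

theorem TER_ord0 {s : R2} (h : Ord s 0) : co s 0 0 ≠ 0 := by
  obtain ⟨j, hj, hne⟩ := LEX_ord_ex h
  have : j = 0 := by omega
  subst this
  exact hne

/-- TER -/
theorem no_inf (g : ℕ → R2) (a b : ℕ → ℕ) (d : ℕ → Option ℂ) (hg : g 0 ≠ 0)
    (g0 : ∀ i, co (g i) 0 0 = 0)
    (hs : ∀ i, Stp (d i) (g i) (a i) (b i) (g (i + 1)) (a (i + 1)) (b (i + 1)))
    (hnl : ∀ i, ¬ Lf (g i) (a i) (b i)) : False := by
  obtain ⟨f, hf⟩ := TER_seq (α := R2 × ℕ × ℕ × ℕ)
    (fun i x => St (g i) (a i) (b i) x.1 x.2.1 x.2.2.1 ∧ Ord x.1 x.2.2.2)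
    (fun i x y => (∀ c, d i = some c → cc c x.1 = U ^ x.2.2.2 * y.1 ∧
        AX1 y.1 0 (ec (ini x.2.2.2 x.1) c)) ∧
      (d i = none → ci x.1 = V ^ x.2.2.2 * y.1 ∧
        AX2 y.1 0 (x.2.2.2 - (ini x.2.2.2 x.1).natDegree)))
    (by
      obtain ⟨s, n, m, hst⟩ := st_init (g 0) hg (a 0) (b 0)
      have hs0 : s ≠ 0 := by
        rintro rfl
        obtain ⟨ε, -, he⟩ := hst.eq
        exact hg (by rw [he, mul_zero])
      obtain ⟨μ, hμ⟩ := lex_ord s hs0
      exact ⟨(s, n, m, μ), hst, hμ⟩)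
    (by
      rintro i ⟨s, n, m, μ⟩ ⟨hst, hO⟩
      have hsi := hs i
      rcases hd : d i with _ | c
      · rw [hd] at hsi
        obtain ⟨h1, h2, h3⟩ := hsi
        obtain ⟨s', n', he, hA, hS⟩ := st_i (g i) (a i) (b i) s n m μ hst hO
        obtain ⟨μ', hμ'⟩ := lex_ord s' (by rintro rfl; exact hA.2.2 (LEX_zero _ _))
        refine ⟨(s', n', n + m + μ, μ'), ⟨?_, hμ'⟩, ?_, ?_⟩
        · rw [h1, h2, h3]; exact hS
        · intro c hc
          exact absurd hc (by simp)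
        · intro _
          exact ⟨he, hA⟩
      · rw [hd] at hsi
        obtain ⟨h1, h2, h3⟩ := hsi
        obtain ⟨s', m', he, hA, hS⟩ := st_c (g i) (a i) (b i) s n m μ hst hO c
        obtain ⟨μ', hμ'⟩ := lex_ord s' (by rintro rfl; exact hA.2.2 (LEX_zero _ _))
        refine ⟨(s', n + m + μ, m', μ'), ⟨?_, hμ'⟩, ?_, ?_⟩
        · rw [h1, h2, h3]; exact hS
        · intro c' hc
          obtain rfl : c = c' := Option.some.inj hc
          exact ⟨he, hA⟩
        · intro hc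
          exact absurd hc (by simp))
  obtain ⟨s, hs'⟩ : ∃ s : ℕ → R2, s = fun i => (f i).1 := ⟨_, rfl⟩
  obtain ⟨μ, hμ'⟩ : ∃ μ : ℕ → ℕ, μ = fun i => (f i).2.2.2 := ⟨_, rfl⟩
  have hSt : ∀ i, ∃ n m, St (g i) (a i) (b i) (s i) n m := fun i =>
    ⟨(f i).2.1, (f i).2.2.1, by rw [hs']; exact (hf i).1.1⟩
  have hO : ∀ i, Ord (s i) (μ i) := fun i => by rw [hs', hμ']; exact (hf i).1.2
  have hC : ∀ i c, d i = some c → cc c (s i) = U ^ μ i * s (i + 1) ∧
      AX1 (s (i + 1)) 0 (ec (ini (μ i) (s i)) c) := fun i c h => by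
    rw [hs', hμ']; exact (hf i).2.1 c h
  have hI : ∀ i, d i = none → ci (s i) = V ^ μ i * s (i + 1) ∧
      AX2 (s (i + 1)) 0 (μ i - (ini (μ i) (s i)).natDegree) := fun i h => by
    rw [hs', hμ']; exact (hf i).2.2 h
  clear hf
  have h1 : ∀ i, 1 ≤ μ i := by
    intro i
    by_contra hc
    have h0 : μ i = 0 := by omega
    have hu : IsUnit (s i) := TER_unit.2 (TER_ord0 (h0 ▸ hO i))
    obtain ⟨n, m, hst⟩ := hSt i
    obtain ⟨ε, hε, he⟩ := hst.eq
    have he' : g i = ε * s i * U ^ n * V ^ m := by rw [he]; ring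
    by_cases hnm : 0 < n ∨ 0 < m
    · apply hnl i
      rw [he']
      exact lf_mono _ (hε.mul hu) n m hnm _ _
    · have hn : n = 0 := by omega
      have hm : m = 0 := by omega
      rw [hn, hm, pow_zero, pow_zero, mul_one, mul_one] at he'
      have h2 := TER_unit.1 (hε.mul hu)
      rw [← he'] at h2
      exact h2 (g0 i)
  have h2 : ∀ i, μ (i + 1) ≤ μ i := by
    intro i
    rcases hd : d i with _ | c
    · have h3 := (lex_deg2 (hO (i + 1)) (hI i hd).2).1
      omega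
    · have h3 := (lex_deg (hO (i + 1)) (hC i c hd).2).1
      have h4 := (lex_rt (hO i) c).1
      have h5 := ini_deg (μ i) (s i)
      omega
  obtain ⟨i0, hi0⟩ := TER_anti μ h2
  have h3 : ∀ i, i0 ≤ i → ∀ c, d i = some c → ∃ c', d (i + 1) = some c' := by
    intro i hi c hc
    have e1 := (lex_deg (hO (i + 1)) (hC i c hc).2).1
    have e2 := (lex_rt (hO i) c).1
    have e3 := ini_deg (μ i) (s i)
    have e4 := hi0 i hi
    have e5 := hi0 (i + 1) (by omega)
    have e6 : ec (ini (μ i) (s i)) c = μ (i + 1) := by omega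
    have hne : co (s (i + 1)) 0 (μ (i + 1)) ≠ 0 := by
      have := (hC i c hc).2.2.2
      rwa [e6] at this
    rcases hd : d (i + 1) with _ | c'
    · exfalso
      have hdeg : μ (i + 1) ≤ (ini (μ (i + 1)) (s (i + 1))).natDegree := by
        apply Polynomial.le_natDegree_of_ne_zero
        rw [LEX_ini, if_pos le_rfl, Nat.sub_self]
        exact hne
      have e7 := (lex_deg2 (hO (i + 1 + 1)) (hI (i + 1) hd).2).1
      have e8 := h1 (i + 1 + 1)
      omega
    · exact ⟨c', rfl⟩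
  by_cases hA : ∀ i, i0 ≤ i → d i = none
  · obtain ⟨δ, hδ, hδe⟩ := limi (fun j => s (i0 + j)) (μ i0) (hO i0) (by
      intro j
      have h4 := (hI (i0 + j) (hA _ (by omega))).1
      rw [hi0 (i0 + j) (by omega)] at h4
      exact h4)
    have hδe' : s i0 = U ^ μ i0 * δ := hδe
    obtain ⟨n, m, hst⟩ := hSt i0
    by_cases ha : 1 ≤ a i0
    · obtain ⟨e, he⟩ := hst.ua ha
      apply he
      rw [hδe', LEX_Um, if_neg]
      have := h1 i0
      omega
    · have hn := hst.a0 (by omega)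
      obtain ⟨ε, hε, he⟩ := hst.eq
      apply hnl i0
      have he' : g i0 = ε * δ * U ^ μ i0 * V ^ m := by
        rw [he, hδe', hn]; ring
      rw [he']
      exact lf_mono _ (hε.mul hδ) _ _ (Or.inl (h1 i0)) _ _
  · push Not at hA
    obtain ⟨i1, hi1, hd1⟩ := hA
    have hall : ∀ j, ∃ c, d (i1 + j) = some c := by
      intro j
      induction j with
      | zero =>
        rcases hd : d i1 with _ | c
        · exact absurd hd hd1
        · exact ⟨c, rfl⟩
      | succ j ih =>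
        obtain ⟨c, hc⟩ := ih
        exact h3 (i1 + j) (by omega) c hc
    have hall' : ∀ i, i1 ≤ i → ∃ c, d i = some c := by
      intro i hi
      have := hall (i - i1)
      rwa [Nat.add_sub_cancel' hi] at this
    have hab : ∀ i c, d i = some c → a (i + 1) = a i + b i + 1 ∧
        b (i + 1) = if c = 0 then b i else 0 := by
      intro i c hc
      have := hs i
      rw [hc] at this
      exact this.2
    choose c hc using hall'
    have hlim : ∀ i (hi : i1 ≤ i), ∃ W δ : R2, co W 0 0 = 0 ∧ co W 0 1 ≠ 0 ∧ IsUnit δ ∧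
        s i = W ^ μ i0 * δ ∧ ((∀ j, c (i + j) (by omega) = 0) → W = V) := by
      intro i hi
      refine lim (fun j => s (i + j)) (fun j => c (i + j) (by omega)) (μ i0) ?_ ?_
      · have := hO i
        rw [hi0 i (by omega)] at this
        exact this
      · intro j
        have h4 := (hC (i + j) _ (hc (i + j) (by omega))).1
        rw [hi0 (i + j) (by omega)] at h4
        exact h4
    by_cases hb : ∃ i, i1 < i ∧ b i = 0
    · obtain ⟨i, hi, hbi⟩ := hb
      obtain ⟨W, δ, hW0, hW1, hδ, hse, -⟩ := hlim i hi.le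
      obtain ⟨n, m, hst⟩ := hSt i
      have hm := hst.b0 hbi
      obtain ⟨ε, hε, he⟩ := hst.eq
      apply hnl i
      have he' : g i = ε * δ * U ^ n * W ^ μ i0 := by
        rw [he, hse, hm]; ring
      rw [he', hbi]
      exact lf_V _ (hε.mul hδ) _ _ (h1 i0) W hW0 hW1 _
    · push Not at hb
      have hc0 : ∀ i (hi : i1 ≤ i), i1 < i → c i hi = 0 := by
        intro i hi hi'
        by_contra hne
        have := (hab i _ (hc i hi)).2
        rw [if_neg hne] at this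
        exact hb (i + 1) (by omega) this
      obtain ⟨W, δ, hW0, hW1, hδ, hse, hWV⟩ := hlim (i1 + 1) (by omega)
      have hW : W = V := hWV (fun j => hc0 _ _ (by omega))
      obtain ⟨n, m, hst⟩ := hSt (i1 + 1)
      obtain ⟨e, he⟩ := hst.vb (by
        have := hb (i1 + 1) (by omega)
        omega)
      apply he
      rw [hse, hW, LEX_Vm, if_neg]
      have := h1 i0
      omega

end Pool.Agent.H56.RE
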